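import Mathlib

/-!
The two-colour Potts model on the square lattice with a defect line, its interface under the Dobrushin
boundary condition, and the Brownian excursion: definitions.
-/

open Set MeasureTheory

namespace Pool.Agent.Helper49.FL

/-- Configurations with two colours: `true` is the colour 1, `false` is the colour 2. -/
abbrev Conf : Type := ℤ × ℤ → Bool

/-- Nearest-neighbour edges of the square lattice: `(x, true)` is the edge `{x, x + (1, 0)}` and `(x, false)` is
the edge `{x, x + (0, 1)}`. -/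
abbrev Edge : Type := (ℤ × ℤ) × Bool

/-- The second end of an edge (the first is `e.1`). -/
def tip (e : Edge) : ℤ × ℤ := if e.2 = true then (e.1.1 + 1, e.1.2) else (e.1.1, e.1.2 + 1)

/-- Couplings: `J` on the edges `{(x, 0), (x, 1)}`, `1` on the other edges. -/
noncomputable def coup (J : ℝ) (e : Edge) : ℝ := if e.2 = false ∧ e.1.2 = 0 then J else 1

/-- The box `{-n, ..., n} × {-n + 1, ..., n}`. -/
noncomputable def Lam (n : ℕ) : Finset (ℤ × ℤ) := Finset.Icc (-(n : ℤ)) n ×ˢ Finset.Icc (-(n : ℤ) + 1) n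

/-- The edges meeting `Λ`. -/
def edges (Λ : Finset (ℤ × ℤ)) : Finset Edge :=
  (Λ ∪ Λ.image fun x => (x.1 - 1, x.2)) ×ˢ {true} ∪ (Λ ∪ Λ.image fun x => (x.1, x.2 - 1)) ×ˢ {false}

/-- The Boltzmann weight. -/
noncomputable def weight (β J : ℝ) (Λ : Finset (ℤ × ℤ)) (ω : Conf) : ℝ :=
  Real.exp (β * ∑ e ∈ edges Λ, coup J e * if ω e.1 = ω (tip e) then 1 else 0)

/-- The configuration equal to `σ` in `Λ` and to `η` off `Λ`. -/
def glue (Λ : Finset (ℤ × ℤ)) (η : Conf) (σ : Λ → Bool) : Conf := fun x => if h : x ∈ Λ then σ ⟨x, h⟩ else η x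

/-- Expectation of `F` for the Gibbs measure in `Λ` with the boundary condition `η`. -/
noncomputable def expec (β J : ℝ) (Λ : Finset (ℤ × ℤ)) (η : Conf) (F : Conf → ℝ) : ℝ :=
  (∑ σ : Λ → Bool, weight β J Λ (glue Λ η σ) * F (glue Λ η σ)) / ∑ σ : Λ → Bool, weight β J Λ (glue Λ η σ)

/-- The spontaneous magnetisation of the homogeneous model: the infimum (which is the limit) over `n` of
`P (ω 0 = 1) - P (ω 0 = 2)` in the box `Lam n` with the boundary condition 1. -/
noncomputable def magn (β : ℝ) : ℝ :=
  ⨅ n : ℕ, expec β 1 (Lam n) (fun _ => true) (fun ω => if ω (0, 0) = true then 1 else -1)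

/-- The Dobrushin boundary condition: colour 1 at the heights `≥ 1`, colour 2 at the heights `≤ 0`. -/
def dob : Conf := fun x => decide (1 ≤ x.2)

/-- The dual edge of an edge `{i, j}`: the points at sup-distance `1/2` from `i` and from `j`. -/
def dual (e : Edge) : Set (ℝ × ℝ) :=
  {x | dist x ((e.1.1 : ℝ), (e.1.2 : ℝ)) = 1 / 2 ∧ dist x (((tip e).1 : ℝ), ((tip e).2 : ℝ)) = 1 / 2}

/-- The union of the dual edges of the edges with ends of different colours. Its connected components are
the contours. -/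
def walls (ω : Conf) : Set (ℝ × ℝ) := ⋃ e ∈ {e : Edge | ω e.1 ≠ ω (tip e)}, dual e

/-- The unbounded contour. -/
def Gam (ω : Conf) : Set (ℝ × ℝ) :=
  {x | x ∈ walls ω ∧ ¬ Bornology.IsBounded (connectedComponentIn (walls ω) x)}

/-- The highest point of the unbounded contour on the vertical line through `(t, 0)`. -/
noncomputable def Gp (ω : Conf) (t : ℝ) : ℝ := sSup {y : ℝ | (t, y) ∈ Gam ω}

/-- The time interval. -/
abbrev TI : Type := Icc (-1 : ℝ) 1

/-- The Borel sigma-algebra of the space of continuous paths (uniform topology). -/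
noncomputable instance : MeasurableSpace C(TI, ℝ) := borel _

instance : BorelSpace C(TI, ℝ) := ⟨rfl⟩

/-- The rescaled interface: the linear interpolation of the points `(x / n, Gp ω x / √n)`, `-n ≤ x ≤ n`
(a sum of tent functions). -/
noncomputable def path (n : ℕ) (ω : Conf) : C(TI, ℝ) where
  toFun s := ∑ x ∈ Finset.Icc (-(n : ℤ)) n, Gp ω x / Real.sqrt n * max 0 (1 - |n * (s : ℝ) - x|)
  continuous_toFun := by fun_prop

/-- The scale factor: the square root of `1 / sinh (β + log (tanh (β / 2)))`. -/
noncomputable def kappa (β : ℝ) : ℝ := Real.sqrt (1 / Real.sinh (β + Real.log (Real.tanh (β / 2))))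

/-- The function `z t^(-3/2) exp (-z²/(2t))`. -/
noncomputable def ent (t z : ℝ) : ℝ := z * Real.exp (-(z ^ 2 / (2 * t))) / (t * Real.sqrt t)

/-- Transition density of Brownian motion on `(0, ∞)` killed at `0`. -/
noncomputable def ker (t y z : ℝ) : ℝ :=
  (Real.exp (-((y - z) ^ 2 / (2 * t))) - Real.exp (-((y + z) ^ 2 / (2 * t)))) / Real.sqrt (2 * Real.pi * t)

/-- Joint density, up to a constant, of the Brownian excursion on `[-1, 1]` at the times `s 0 < ... < s p`. -/
noncomputable def dens {p : ℕ} (s z : Fin (p + 1) → ℝ) : ℝ :=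
  ent (1 + s 0) (z 0) * (∏ i : Fin p, ker (s i.succ - s i.castSucc) (z i.castSucc) (z i.succ)) *
    ent (1 - s (Fin.last p)) (z (Fin.last p))

/-- `P` is the law of the Brownian excursion on `[-1, 1]`: a probability measure on the space of continuous
paths whose joint law at any times `-1 < s 0 < ... < s p < 1` is proportional to the measure on `(0, ∞)^(p+1)` with
the density `dens s`. -/
def IsExc (P : Measure C(TI, ℝ)) : Prop :=
  IsProbabilityMeasure P ∧ ∀ (p : ℕ) (s : Fin (p + 1) → TI), StrictMono s → -1 < (s 0 : ℝ) →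
    (s (Fin.last p) : ℝ) < 1 → ∃ c : ENNReal, P.map (fun f i => f (s i)) =
      c • (volume.restrict {z : Fin (p + 1) → ℝ | ∀ i, 0 < z i}).withDensity
        (fun z => ENNReal.ofReal (dens (fun i => (s i : ℝ)) z))

end Pool.Agent.Helper49.FL
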