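import Pool.Agent.Helper49.FL.Geo

/-!
Block BE-T2: the contours are the classes of `SameContour`.

Paper proofs. `Broken ω e ↔ ω e.1 ≠ ω (tip e)` (`brk_iff`: `bend e = tip e`). For a broken `e` let `C = {f | SameContour ω e f}` (all its elements are broken) and `U = ⋃ f ∈ C, dual f`.
* `comp_eq`: `connectedComponentIn (walls ω) x = U` for `x ∈ dual e`. (i) `U` is preconnected: for `f ∈ C` by induction on the chain, `⋃` of the dual edges of the chain is preconnected and contains `x` (`dual_meet`, `IsPreconnected.union`), `isPreconnected_of_forall` or `isPreconnected_sUnion`; `x ∈ U ⊆ walls ω`, so `U ⊆ connectedComponentIn`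
  (`IsPreconnected.subset_connectedComponentIn`). (ii) `U` and `V = ⋃ f broken, f ∉ C, dual f` are closed (`locfin`, `LocallyFinite.isClosed_biUnion` or `LocallyFinite.subset`), disjoint (`dual_meet`: if `dual f` meets `dual f'`, `f ∈ C`, `f'` broken, then `f' ∈ C`), `walls ω = U ∪ V`. The connected component is preconnected, contained in `U ∪ V` and meets `U`, so
  it is contained in `U` (`IsPreconnected.subset_left_of_subset_union` is for open sets; for closed sets use `isPreconnected_closed_iff`).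
* `mem_gam`: `x ∈ walls ω` iff `x ∈ dual e` for a broken `e`; `U` is bounded iff `C` is finite (`inf_unbdd`, `fin_bdd`).
-/

open Set

namespace Pool.Agent.Helper49.FL

open Pool.Agent.Helper49.DL

theorem brk_iff (ω : Conf) (e : Edge) : Broken ω e ↔ ω e.1 ≠ ω (tip e) := by
  obtain ⟨⟨a, b⟩, c⟩ := e
  cases c <;> simp [Broken, bend, tip, e1, e2]

private theorem brk_of {ω : Conf} {e f : Edge} (he : Broken ω e) (h : SameContour ω e f) : Broken ω f := by
  rcases Relation.ReflTransGen.cases_tail h with h | ⟨c, _, h⟩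
  · rw [h]; exact he
  · exact h.2.1

private theorem mem_walls {ω : Conf} {x : ℝ × ℝ} : x ∈ walls ω ↔ ∃ e, Broken ω e ∧ x ∈ dual e := by
  simp only [walls, mem_iUnion, mem_ofPred_eq, exists_prop, brk_iff]

private theorem closed_un (S : Set Edge) : IsClosed (⋃ f ∈ S, dual f) := by
  rw [biUnion_eq_iUnion]
  exact (locfin.comp_injective Subtype.val_injective).isClosed_iUnion fun i => dual_closed i.1

theorem comp_eq {ω : Conf} {e : Edge} (he : Broken ω e) {x : ℝ × ℝ} (hx : x ∈ dual e) :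
    connectedComponentIn (walls ω) x = ⋃ f ∈ {f : Edge | SameContour ω e f}, dual f := by
  set C : Set Edge := {f : Edge | SameContour ω e f} with hC
  have heC : e ∈ C := Relation.ReflTransGen.refl
  have hxU : x ∈ ⋃ f ∈ C, dual f := mem_biUnion heC hx
  have hsub : (⋃ f ∈ C, dual f) ⊆ walls ω := by
    intro y hy
    obtain ⟨f, hf, hyf⟩ := mem_iUnion₂.1 hy
    exact mem_walls.2 ⟨f, brk_of he hf, hyf⟩
  have hchain : ∀ f, SameContour ω e f →
      ∃ t ⊆ ⋃ f ∈ C, dual f, x ∈ t ∧ dual f ⊆ t ∧ IsPreconnected t := by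
    intro f hf
    induction hf with
    | refl => exact ⟨dual e, subset_biUnion_of_mem (u := fun f => dual f) heC, hx, Subset.rfl, dual_conn e⟩
    | @tail b c hb hbc ih =>
      obtain ⟨t, ht, hxt, hbt, htc⟩ := ih
      have hcC : c ∈ C := Relation.ReflTransGen.tail hb hbc
      obtain ⟨z, hz1, hz2⟩ := (dual_meet b c).2 hbc.2.2
      refine ⟨t ∪ dual c, union_subset ht (subset_biUnion_of_mem (u := fun f => dual f) hcC), Or.inl hxt,
        subset_union_right, IsPreconnected.union z (hbt hz1) hz2 htc (dual_conn c)⟩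
  have hUc : IsPreconnected (⋃ f ∈ C, dual f) := by
    refine isPreconnected_of_forall x fun y hy => ?_
    obtain ⟨f, hf, hyf⟩ := mem_iUnion₂.1 hy
    obtain ⟨t, ht, hxt, hft, htc⟩ := hchain f hf
    exact ⟨t, ht, hxt, hft hyf, htc⟩
  refine Subset.antisymm ?_ (hUc.subset_connectedComponentIn hxU hsub)
  have hpre : IsPreconnected (connectedComponentIn (walls ω) x) := isPreconnected_connectedComponentIn
  have hdisj : ∀ z, z ∈ (⋃ f ∈ C, dual f) → z ∈ (⋃ f ∈ {f | Broken ω f ∧ f ∉ C}, dual f) → False := by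
    intro z h1 h2
    obtain ⟨f, hf, hzf⟩ := mem_iUnion₂.1 h1
    obtain ⟨g, hg, hzg⟩ := mem_iUnion₂.1 h2
    exact hg.2 (Relation.ReflTransGen.tail hf ⟨brk_of he hf, hg.1, (dual_meet f g).1 ⟨z, hzf, hzg⟩⟩)
  have hcov : walls ω ⊆ (⋃ f ∈ C, dual f) ∪ ⋃ f ∈ {f | Broken ω f ∧ f ∉ C}, dual f := by
    intro z hz
    obtain ⟨f, hf, hzf⟩ := mem_walls.1 hz
    by_cases hfC : f ∈ C
    · exact Or.inl (mem_biUnion hfC hzf)
    · exact Or.inr (mem_biUnion (show f ∈ {f | Broken ω f ∧ f ∉ C} from ⟨hf, hfC⟩) hzf)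
  intro y hy
  rcases hcov (connectedComponentIn_subset _ _ hy) with h | h
  · exact h
  · exfalso
    obtain ⟨z, _, hz1, hz2⟩ := isPreconnected_closed_iff.1 hpre _ _ (closed_un C)
      (closed_un {f | Broken ω f ∧ f ∉ C}) ((connectedComponentIn_subset _ _).trans hcov)
      ⟨x, mem_connectedComponentIn (hsub hxU), hxU⟩ ⟨y, hy, h⟩
    exact hdisj z hz1 hz2

theorem mem_gam (ω : Conf) (x : ℝ × ℝ) :
    x ∈ Gam ω ↔ ∃ e, Broken ω e ∧ x ∈ dual e ∧ {f : Edge | SameContour ω e f}.Infinite := by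
  constructor
  · rintro ⟨hx, hub⟩
    obtain ⟨e, he, hxe⟩ := mem_walls.1 hx
    refine ⟨e, he, hxe, fun hfin => hub ?_⟩
    rw [comp_eq he hxe]
    exact fin_bdd hfin
  · rintro ⟨e, he, hxe, hinf⟩
    refine ⟨mem_walls.2 ⟨e, he, hxe⟩, ?_⟩
    rw [comp_eq he hxe]
    exact inf_unbdd hinf

end Pool.Agent.Helper49.FL
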