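import Pool.Agent.Helper49.FL.Scale

/-!
Block BE-X: the Brownian excursion and the decomposition of the limit.

Paper proofs. For `f : C(TI, ℝ)` and `s : Fin (p + 1) → TI`: `ev f (s i) = f (s i)` (`Set.projIcc_of_mem`/`projIcc_val`), so `IsExc P` says `P.map (fun f i => ev f (s i)) = c • Em s` for strictly increasing real `s i ∈ (-1, 1)` (`isExc_iff`; if `-1 < s 0`, `s p < 1` and `s` strictly increasing then all `s i ∈ (-1, 1)`).
* `exc_unique`: `law_ext`: the two joint laws are `c • Em s` and `c' • Em s`, both probability measures: `c * Em s univ = 1 = c' * Em s univ`, so `Em s univ ≠ 0, ⊤` and `c = c'`.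
* `exc_of`: `P = μ.map (fun f => (√g)⁻¹ • |f|)` (`|f|` is `f ↦ |f s|`, continuous in `f`: `continuous_abs` in the lattice `C(TI, ℝ)`; measurable). Its joint law at `s` is the image of `μ.map (ev s) = (2 Dm univ)⁻¹ • (Dm + Dm.map neg)` (`joint`) under `z ↦ (√g)⁻¹ • |z|`: `Dm` lives on the positive orthant, where `|z| = z`, and for `Dm.map neg` also
  `|-z| = z`; so both parts have the image `(Dm g s).map (fun z => (√g)⁻¹ • z) = c • Em s` (`dm_scale`; `Measure.map_map`, `Measure.map_congr` for functions equal almost everywhere). So `IsExc P`.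
  Let `P' = (1/2) • (P.map (fun f => √g • f) + P.map (fun f => -(√g • f)))`, a probability measure. Its joint law at `s` is `(1/2) • (R + R.map neg)`, `R = (P.map (ev s)).map (√g • ·) = (Dm univ)⁻¹ • Dm` (the image of `z ↦ (√g)⁻¹ • |z|`, then `√g • ·`, is `z ↦ |z|`); so it is the joint law of `μ`. `law_ext`: `μ = P'`. For continuous bounded `G`:
  `∫ G dμ = ∫ G dP' = (1/2) (∫ G (√g • f) dP + ∫ G (-(√g • f)) dP)` (`integral_map`, `integral_smul_measure`, `integral_add_measure`; bounded continuous functions are integrable).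
-/

open Set MeasureTheory

namespace Pool.Agent.Helper49.FL

open Pool.Agent.Helper49.RD Pool.Agent.Helper49.PL

private theorem ev_tm68 (f : C(TI, ℝ)) (t : TI) : ev f (t : ℝ) = f t := by
  unfold PL.ev
  rw [projIcc_val]

private theorem ev_of68 (f : C(TI, ℝ)) {t : ℝ} (h : t ∈ Icc (-1 : ℝ) 1) : ev f t = f ⟨t, h⟩ := by
  unfold PL.ev
  rw [projIcc_of_mem _ h]

private theorem evm68 {p : ℕ} (s : Fin (p + 1) → ℝ) : Measurable fun (f : C(TI, ℝ)) i => ev f (s i) :=
  measurable_pi_lambda _ fun i => ev_meas (s i)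

theorem isExc_iff (P : Measure C(TI, ℝ)) : IsExc P ↔ IsProbabilityMeasure P ∧
    ∀ (p : ℕ) (s : Fin (p + 1) → ℝ), StrictMono s → (∀ i, -1 < s i ∧ s i < 1) →
      ∃ c : ENNReal, P.map (fun f i => ev f (s i)) = c • Em s := by
  constructor
  · rintro ⟨h1, h2⟩
    refine ⟨h1, fun p s hs hs1 => ?_⟩
    have hm : ∀ i, s i ∈ Icc (-1 : ℝ) 1 := fun i => ⟨(hs1 i).1.le, (hs1 i).2.le⟩
    obtain ⟨c, hc⟩ := h2 p (fun i => ⟨s i, hm i⟩) (fun i j hij => hs hij) (hs1 0).1 (hs1 (Fin.last p)).2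
    refine ⟨c, ?_⟩
    have h3 : (fun (f : C(TI, ℝ)) i => ev f (s i)) = fun f i => f ⟨s i, hm i⟩ := by
      funext f i
      exact ev_of68 f (hm i)
    rw [h3, hc]
    rfl
  · rintro ⟨h1, h2⟩
    refine ⟨h1, fun p s hs h0 hl => ?_⟩
    obtain ⟨c, hc⟩ := h2 p (fun i => (s i : ℝ)) (fun i j hij => hs hij) (fun i =>
      ⟨lt_of_lt_of_le h0 (hs.monotone (Fin.zero_le i)), lt_of_le_of_lt (hs.monotone (Fin.le_last i)) hl⟩)
    refine ⟨c, ?_⟩
    have h3 : (fun (f : C(TI, ℝ)) i => f (s i)) = fun f i => ev f ((s i : ℝ)) := by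
      funext f i
      exact (ev_tm68 f (s i)).symm
    rw [h3, hc]
    rfl

private theorem inv68 {c e : ENNReal} (h : c * e = 1) : c = e⁻¹ := ENNReal.eq_inv_of_mul_eq_one_left h

theorem exc_unique {P Q : Measure C(TI, ℝ)} (hP : IsExc P) (hQ : IsExc Q) : P = Q := by
  rw [isExc_iff] at hP hQ
  obtain ⟨hP1, hP2⟩ := hP
  obtain ⟨hQ1, hQ2⟩ := hQ
  refine law_ext fun p s hs hs1 => ?_
  obtain ⟨c, hc⟩ := hP2 p s hs hs1
  obtain ⟨d, hd⟩ := hQ2 p s hs hs1
  have e1 : c * Em s univ = 1 := by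
    have h : (P.map (fun f i => ev f (s i))) univ = 1 := by
      rw [Measure.map_apply (evm68 s) MeasurableSet.univ, preimage_univ, measure_univ]
    rw [hc, Measure.smul_apply, smul_eq_mul] at h
    exact h
  have e2 : d * Em s univ = 1 := by
    have h : (Q.map (fun f i => ev f (s i))) univ = 1 := by
      rw [Measure.map_apply (evm68 s) MeasurableSet.univ, preimage_univ, measure_univ]
    rw [hd, Measure.smul_apply, smul_eq_mul] at h
    exact h
  rw [hc, hd, inv68 e1, inv68 e2]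

private theorem pos_ae68 (g : ℝ) {p : ℕ} (s : Fin (p + 1) → ℝ) : ∀ᵐ z ∂(Dm g s), z ∈ pos p := by
  have h1 : MeasurableSet (pos p) := by
    have : pos p = ⋂ i, (fun z : Fin (p + 1) → ℝ => z i) ⁻¹' Ioi 0 := by
      ext z
      simp [pos]
    rw [this]
    exact MeasurableSet.iInter fun i => (measurable_pi_apply i) measurableSet_Ioi
  exact (withDensity_absolutelyContinuous _ _).ae_le (ae_restrict_mem h1)

private theorem absm68 {p : ℕ} : Measurable fun (z : Fin (p + 1) → ℝ) i => |z i| :=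
  measurable_pi_lambda _ fun i => (measurable_pi_apply i).abs

private theorem negm68 {p : ℕ} : Measurable fun (z : Fin (p + 1) → ℝ) => -z :=
  measurable_pi_lambda _ fun i => (measurable_pi_apply i).neg

private theorem abs_map68 (g : ℝ) {p : ℕ} (s : Fin (p + 1) → ℝ) : (Dm g s).map (fun z i => |z i|) = Dm g s := by
  have h : (fun (z : Fin (p + 1) → ℝ) i => |z i|) =ᵐ[Dm g s] id := by
    filter_upwards [pos_ae68 g s] with z hz
    funext i
    exact abs_of_pos (hz i)
  rw [Measure.map_congr h, Measure.map_id]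

private theorem absev68 {p : ℕ} (s : Fin (p + 1) → ℝ) : Measurable fun (f : C(TI, ℝ)) i => |ev f (s i)| :=
  measurable_pi_lambda _ fun i => (ev_meas (s i)).abs

private theorem absjoint68 {g : ℝ} (hg : 0 < g) {p : ℕ} {s : Fin (p + 1) → ℝ} (hs : StrictMono s)
    (hs1 : ∀ i, -1 < s i ∧ s i < 1) {μ : Measure C(TI, ℝ)} [IsProbabilityMeasure μ]
    (hμ : ∀ b : Fin (p + 1) → ℝ, (∀ i, b i ≠ 0) → μ.real {f | ∀ i, b i ≤ ev f (s i)} = FF g (p + 1) s b) :
    μ.map (fun f i => |ev f (s i)|) = (2 * Dm g s univ)⁻¹ • (Dm g s + Dm g s) := by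
  have h1 : (fun (f : C(TI, ℝ)) i => |ev f (s i)|) = (fun (z : Fin (p + 1) → ℝ) i => |z i|) ∘
      fun f i => ev f (s i) := rfl
  rw [h1, ← Measure.map_map absm68 (evm68 s), joint hg hs hs1 hμ, Measure.map_smul, Measure.map_add _ _ absm68,
    Measure.map_map absm68 negm68, abs_map68]
  have h2 : ((fun (z : Fin (p + 1) → ℝ) i => |z i|) ∘ fun z => -z) = fun z i => |z i| := by
    funext z i
    simp
  rw [h2, abs_map68]

private theorem du68 {g : ℝ} (hg : 0 < g) {p : ℕ} {s : Fin (p + 1) → ℝ} (hs : StrictMono s)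
    (hs1 : ∀ i, -1 < s i ∧ s i < 1) : Dm g s univ ≠ 0 ∧ Dm g s univ ≠ ⊤ := by
  obtain ⟨h1, h2⟩ := dm_univ hg hs hs1
  rw [h1]
  exact ⟨by simpa using h2, ENNReal.ofReal_ne_top⟩

/-- The map `f ↦ (√g)⁻¹ |f|`. -/
private noncomputable def A68 (g : ℝ) (f : C(TI, ℝ)) : C(TI, ℝ) :=
  (ContinuousMap.mk (fun x : ℝ => (Real.sqrt g)⁻¹ * |x|) (by fun_prop)).comp f

private theorem A68_cont (g : ℝ) : Continuous (A68 g) := by
  unfold A68
  exact ContinuousMap.continuous_postcomp _

private theorem A68_ev (g : ℝ) (f : C(TI, ℝ)) (t : ℝ) : ev (A68 g f) t = (Real.sqrt g)⁻¹ * |ev f t| := rfl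

private theorem smul_cont68 (c : ℝ) : Continuous fun f : C(TI, ℝ) => c • f := by fun_prop

private theorem nsmul_cont68 (c : ℝ) : Continuous fun f : C(TI, ℝ) => -(c • f) := by fun_prop

theorem exc_of {g : ℝ} (hg : 0 < g) {μ : Measure C(TI, ℝ)} [IsProbabilityMeasure μ]
    (hμ : ∀ p : ℕ, 1 ≤ p → ∀ s b : Fin p → ℝ, StrictMono s → (∀ i, -1 < s i ∧ s i < 1) → (∀ i, b i ≠ 0) →
      μ.real {f | ∀ i, b i ≤ ev f (s i)} = FF g p s b) :
    ∃ P : Measure C(TI, ℝ), IsExc P ∧ ∀ G : C(TI, ℝ) → ℝ, Continuous G → (∃ B : ℝ, ∀ f, |G f| ≤ B) →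
      ∫ f, G f ∂μ = ∫ f, (G (Real.sqrt g • f) + G (-(Real.sqrt g • f))) / 2 ∂P := by
  have hq : 0 < Real.sqrt g := Real.sqrt_pos.2 hg
  have hAm : Measurable (A68 g) := (A68_cont g).measurable
  have hSm : Measurable fun f : C(TI, ℝ) => Real.sqrt g • f := (smul_cont68 _).measurable
  have hNm : Measurable fun f : C(TI, ℝ) => -(Real.sqrt g • f) := (nsmul_cont68 _).measurable
  have hP1 : IsProbabilityMeasure (μ.map (A68 g)) := Measure.isProbabilityMeasure_map hAm.aemeasurable
  have hPS : IsProbabilityMeasure ((μ.map (A68 g)).map fun f => Real.sqrt g • f) :=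
    Measure.isProbabilityMeasure_map hSm.aemeasurable
  have hPN : IsProbabilityMeasure ((μ.map (A68 g)).map fun f => -(Real.sqrt g • f)) :=
    Measure.isProbabilityMeasure_map hNm.aemeasurable
  have habs : ∀ (p : ℕ) (s : Fin (p + 1) → ℝ), StrictMono s → (∀ i, -1 < s i ∧ s i < 1) →
      μ.map (fun f i => |ev f (s i)|) = (2 * Dm g s univ)⁻¹ • (Dm g s + Dm g s) := fun p s hs hs1 =>
    absjoint68 hg hs hs1 fun b hb => hμ (p + 1) (by omega) s b hs hs1 hb
  refine ⟨μ.map (A68 g), ?_, ?_⟩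
  · rw [isExc_iff]
    refine ⟨hP1, fun p s hs hs1 => ?_⟩
    obtain ⟨c, -, -, hc⟩ := dm_scale hg hs hs1
    refine ⟨(2 * Dm g s univ)⁻¹ * (c + c), ?_⟩
    have hsm : Measurable fun z : Fin (p + 1) → ℝ => (Real.sqrt g)⁻¹ • z := measurable_const_smul _
    have e1 : (fun (f : C(TI, ℝ)) i => ev f (s i)) ∘ A68 g =
        (fun z : Fin (p + 1) → ℝ => (Real.sqrt g)⁻¹ • z) ∘ fun f i => |ev f (s i)| := by
      funext f i
      simp only [Function.comp_apply, A68_ev, Pi.smul_apply, smul_eq_mul]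
    rw [Measure.map_map (evm68 s) hAm, e1, ← Measure.map_map hsm (absev68 s), habs p s hs hs1,
      Measure.map_smul, Measure.map_add _ _ hsm, hc, ← add_smul, smul_smul]
  · intro G hG hB
    obtain ⟨B, hB⟩ := hB
    have hμe : μ = (2 : ENNReal)⁻¹ • ((μ.map (A68 g)).map (fun f => Real.sqrt g • f) +
        (μ.map (A68 g)).map fun f => -(Real.sqrt g • f)) := by
      have : IsProbabilityMeasure ((2 : ENNReal)⁻¹ • ((μ.map (A68 g)).map (fun f => Real.sqrt g • f) +
          (μ.map (A68 g)).map fun f => -(Real.sqrt g • f))) := by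
        refine ⟨?_⟩
        rw [Measure.smul_apply, Measure.add_apply, measure_univ, measure_univ, smul_eq_mul, one_add_one_eq_two,
          ENNReal.inv_mul_cancel two_ne_zero ENNReal.ofNat_ne_top]
      refine law_ext fun p s hs hs1 => ?_
      rw [Measure.map_smul, Measure.map_add _ _ (evm68 s), Measure.map_map (evm68 s) hSm,
        Measure.map_map (evm68 s) hNm, Measure.map_map ((evm68 s).comp hSm) hAm,
        Measure.map_map ((evm68 s).comp hNm) hAm]
      have e1 : ((fun (f : C(TI, ℝ)) i => ev f (s i)) ∘ fun f => Real.sqrt g • f) ∘ A68 g =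
          fun f i => |ev f (s i)| := by
        funext f i
        show Real.sqrt g * ((Real.sqrt g)⁻¹ * |ev f (s i)|) = _
        rw [mul_inv_cancel_left₀ hq.ne']
      have e2 : ((fun (f : C(TI, ℝ)) i => ev f (s i)) ∘ fun f => -(Real.sqrt g • f)) ∘ A68 g =
          (fun z : Fin (p + 1) → ℝ => -z) ∘ fun f i => |ev f (s i)| := by
        funext f i
        show -(Real.sqrt g * ((Real.sqrt g)⁻¹ * |ev f (s i)|)) = -|ev f (s i)|
        rw [mul_inv_cancel_left₀ hq.ne']
      rw [e1, e2, ← Measure.map_map negm68 (absev68 s), habs p s hs hs1, Measure.map_smul,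
        Measure.map_add _ _ negm68, joint hg hs hs1 fun b hb => hμ (p + 1) (by omega) s b hs hs1 hb,
        ← smul_add, smul_comm (2 : ENNReal)⁻¹]
      congr 1
      rw [← two_smul ENNReal (Dm g s), ← two_smul ENNReal ((Dm g s).map fun z => -z), ← smul_add, smul_smul,
        ENNReal.inv_mul_cancel two_ne_zero ENNReal.ofNat_ne_top, one_smul]
    have hbd : ∀ (ν : Measure C(TI, ℝ)) [IsProbabilityMeasure ν] (H : C(TI, ℝ) → ℝ), Continuous H →
        (∀ f, |H f| ≤ B) → Integrable H ν := fun ν _ H hH h =>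
      Integrable.of_bound hH.aestronglyMeasurable B (Filter.Eventually.of_forall h)
    conv_lhs => rw [hμe]
    rw [integral_smul_measure, integral_add_measure (hbd _ G hG hB) (hbd _ G hG hB),
      integral_map hSm.aemeasurable hG.aestronglyMeasurable, integral_map hNm.aemeasurable hG.aestronglyMeasurable,
      integral_div, integral_add (hbd _ (fun f => G (Real.sqrt g • f)) (hG.comp (smul_cont68 _)) fun f => hB _)
        (hbd _ (fun f => G (-(Real.sqrt g • f))) (hG.comp (nsmul_cont68 _)) fun f => hB _)]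
    rw [ENNReal.toReal_inv, ENNReal.toReal_ofNat, smul_eq_mul]
    ring

end Pool.Agent.Helper49.FL
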