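import Pool.Agent.Helper49.FL.Def
import Pool.Agent.Helper49.DL.Explore

/-!
Block BE-A: the expectation of `FL/Def.lean` is the average `avg` of `DL/Gibbs.lean`.

Paper proofs. `Lam n = box n n` (definitional). The map `σ ↦ glue Λ η σ` is a bijection from `Λ → Bool` to `confs Λ η` (`mem_confs`), so the sums agree (`Finset.sum_bij` or `Finset.sum_nbij'`).
`weight β J Λ ω = wg β (kap J) Λ ω`: `edges Λ` is a disjoint union of `hb Λ ×ˢ {true}` and `vb Λ ×ˢ {false}`; the term of `(x, true)` is `agr (ω x) (ω (x + e1))` and that of `(x, false)` is `kap J x * agr (ω x) (ω (x + e2))`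
(`coup J (x, false) = if x.2 = 0 then J else 1`, `x - e1 = (x.1 - 1, x.2)`). `magn_eq`: `sp true = 1`, `sp false = -1`, `tt = fun _ => true`.
-/

open Finset
open scoped Classical

namespace Pool.Agent.Helper49.FL

open Pool.Agent.Helper49.DL

private theorem sub1_38 (x : ℤ × ℤ) : x - e1 = (x.1 - 1, x.2) := by
  apply Prod.ext
  · rfl
  · change x.2 - 0 = x.2
    exact sub_zero _

private theorem sub2_38 (x : ℤ × ℤ) : x - e2 = (x.1, x.2 - 1) := by
  apply Prod.ext
  · change x.1 - 0 = x.1
    exact sub_zero _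
  · rfl

private theorem tip1_38 (x : ℤ × ℤ) : tip (x, true) = x + e1 := by
  apply Prod.ext
  · rfl
  · change x.2 = x.2 + 0
    exact (add_zero _).symm

private theorem tip2_38 (x : ℤ × ℤ) : tip (x, false) = x + e2 := by
  apply Prod.ext
  · change x.1 = x.1 + 0
    exact (add_zero _).symm
  · rfl

private theorem edges38 (Λ : Finset (ℤ × ℤ)) :
    edges Λ = hb Λ ×ˢ ({true} : Finset Bool) ∪ vb Λ ×ˢ ({false} : Finset Bool) := by
  unfold edges hb vb
  simp only [sub1_38, sub2_38]

private theorem weight38 (β J : ℝ) (Λ : Finset (ℤ × ℤ)) (ω : Conf) :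
    weight β J Λ ω = wg β (kap J) Λ ω := by
  unfold weight wg en
  rw [edges38, Finset.sum_union, Finset.sum_product, Finset.sum_product]
  · simp only [Finset.sum_singleton]
    congr 2
    congr 1
    · refine Finset.sum_congr rfl fun x _ => ?_
      rw [tip1_38]
      simp [coup, agr]
    · refine Finset.sum_congr rfl fun x _ => ?_
      rw [tip2_38]
      simp [coup, agr, kap]
  · rw [Finset.disjoint_left]
    rintro ⟨x, b⟩ h1 h2
    rw [Finset.mem_product, Finset.mem_singleton] at h1 h2
    simp_all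

private theorem sum38 (Λ : Finset (ℤ × ℤ)) (η : Conf) (G : Conf → ℝ) :
    ∑ σ : Λ → Bool, G (glue Λ η σ) = ∑ ω ∈ confs Λ η, G ω := by
  refine Finset.sum_bij (fun σ _ => glue Λ η σ) ?_ ?_ ?_ ?_
  · intro σ _
    rw [mem_confs]
    intro i hi
    simp [glue, hi]
  · intro σ _ τ _ h
    funext x
    have h1 := congrFun h x.1
    simpa [glue] using h1
  · intro ω hω
    rw [mem_confs] at hω
    refine ⟨fun x => ω x.1, Finset.mem_univ _, ?_⟩
    funext x
    by_cases hx : x ∈ Λ
    · simp [glue, hx]
    · simp [glue, hx, hω x hx]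
  · intro σ _
    rfl

theorem expec_eq (β J : ℝ) (n : ℕ) (η : Conf) (F : Conf → ℝ) :
    expec β J (Lam n) η F = avg β (kap J) (box n n) η F := by
  unfold expec avg Zg
  have e : Lam n = box n n := rfl
  rw [e, sum38 (box n n) η (fun ω => weight β J (box n n) ω * F ω),
    sum38 (box n n) η (fun ω => weight β J (box n n) ω)]
  simp only [weight38, mul_one]

theorem magn_eq (β : ℝ) : magn β = mag β := by
  unfold magn mag
  congr 1
  funext n
  rw [expec_eq]
  congr 1

theorem dob_eq : dob = eta 0 := by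
  funext x
  simp [dob, eta]

end Pool.Agent.Helper49.FL
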