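import Pool.Agent.Helper49.FL.Def
import Pool.Agent.Helper49.RD.FeDef
import Pool.Agent.Helper49.RD.Hk2

/-!
Block BE-F: iterated integrals are multiple integrals.

`dg g s z = rho (g (1 + s 0)) (z 0) * ∏ i : Fin p, hk (g (s (i+1) - s i)) (z i) (z (i+1)) * rho (g (1 - s p)) (z p)`.

Paper proofs. `lint_bl`: for `0 < g`, `t < 1 + s 0`, `s` strictly increasing, `s p < 1`, `y ≥ 0`, multipliers `φ i` measurable with values in `[0, 1]`: `ofReal (Bl g t (ofFn (1 + s i, φ i)) y) = ∫⁻ z in (0, ∞)^(p+1), ofReal (hk (g (1 + s 0 - t)) y (z 0) * ∏ hk .. * rho (g (1 - s p)) (z p) * ∏ φ i (z i))`. Induction on `p`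
(`List.ofFn_succ`): `Bl g t (a :: r) y = ∫ z₀ in Ioi 0, hk (..) y z₀ * (φ₀ z₀ * Bl g (1 + s 0) r z₀)`; the integrand is nonnegative (`hk_nonneg`; `Bl ≥ 0` for nonnegative multipliers, by induction) and integrable (bounded by `B * hk`, `bl_cz`; as in the proofs of `tv_le`), so `ofReal` of the integral is `∫⁻` of `ofReal` (`ofReal_integral_eq_lintegral_ofReal`). Insert the
induction hypothesis and use Tonelli: `(0, ∞)^(p+1) = (0, ∞) × (0, ∞)^p` by `MeasurableEquiv.piFinSuccAbove (fun _ => ℝ) 0`, `MeasureTheory.volume_preserving_piFinSuccAbove`, `lintegral_prod`, `Fin.cons`, `Fin.prod_univ_succ`. For `p = 0`: `Bl g t [] = rho (g (2 - t))`, one variable (`MeasurableEquiv.funUnique`,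
`volume_preserving_funUnique`), or start the induction with the empty product, i.e. with lists of length `0` (`Fin 0 → ℝ` is a point), whichever is more convenient. `ml_lint`: the same for the first step with `La` and `rho (g (1 + s 0))` in place of `hk`.
-/

open Set MeasureTheory

namespace Pool.Agent.Helper49.FL

open Pool.Agent.Helper49.RD

/-- Joint density for the diffusion constant `g`, up to a constant. -/
noncomputable def dg (g : ℝ) {p : ℕ} (s z : Fin (p + 1) → ℝ) : ℝ :=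
  rho (g * (1 + s 0)) (z 0) * (∏ i : Fin p, hk (g * (s i.succ - s i.castSucc)) (z i.castSucc) (z i.succ)) *
    rho (g * (1 - s (Fin.last p))) (z (Fin.last p))

/-- The open positive orthant. -/
def pos (p : ℕ) : Set (Fin (p + 1) → ℝ) := {z | ∀ i, 0 < z i}

/-! ### Gaussian bounds -/

private theorem rho_nonneg58 {v z : ℝ} (hv : 0 < v) (hz : 0 ≤ z) : 0 ≤ rho v z := by
  unfold rho
  positivity

private theorem gi58 {v : ℝ} (hv : 0 < v) : Integrable (fun x : ℝ => Real.exp (-(x ^ 2 / (2 * v)))) := by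
  have h : (fun x : ℝ => Real.exp (-(x ^ 2 / (2 * v)))) = fun x => Real.exp (-(1 / (2 * v)) * x ^ 2) := by
    funext x
    congr 1
    ring
  rw [h]
  exact integrable_exp_neg_mul_sq (by positivity)

private theorem gxi58 {v : ℝ} (hv : 0 < v) : Integrable (fun x : ℝ => x * Real.exp (-(x ^ 2 / (2 * v)))) := by
  have h : (fun x : ℝ => x * Real.exp (-(x ^ 2 / (2 * v)))) = fun x => x * Real.exp (-(1 / (2 * v)) * x ^ 2) := by
    funext x
    congr 2
    ring
  rw [h]
  exact integrable_mul_exp_neg_mul_sq (by positivity)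

private theorem hk_cont58 (v : ℝ) : Continuous fun q : ℝ × ℝ => hk v q.1 q.2 := by
  unfold hk
  fun_prop

private theorem rho_cont58 (v : ℝ) : Continuous (rho v) := by
  unfold rho
  fun_prop

private theorem hk_meas58 (v : ℝ) {α : Type*} [MeasurableSpace α] {f h : α → ℝ} (hf : Measurable f)
    (hh : Measurable h) : Measurable fun a => hk v (f a) (h a) := by
  have h1 : Measurable fun q : ℝ × ℝ => hk v q.1 q.2 := (hk_cont58 v).measurable
  have h2 : Measurable fun a => (f a, h a) := hf.prodMk hh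
  have h3 := h1.comp h2
  exact h3

private theorem rho_meas58 (v : ℝ) {α : Type*} [MeasurableSpace α] {f : α → ℝ} (hf : Measurable f) :
    Measurable fun a => rho v (f a) :=
  (rho_cont58 v).measurable.comp hf

private theorem hk_le58 {v : ℝ} (hv : 0 < v) (y z : ℝ) :
    hk v y z ≤ Real.exp (-((y - z) ^ 2 / (2 * v))) / Real.sqrt (2 * Real.pi * v) := by
  unfold hk
  apply div_le_div_of_nonneg_right _ (Real.sqrt_nonneg _)
  linarith [Real.exp_pos (-((y + z) ^ 2 / (2 * v)))]

private theorem tv_int58 {v B : ℝ} (hv : 0 < v) {f : ℝ → ℝ} (hf : Measurable f) (hB : ∀ z, 0 ≤ z → |f z| ≤ B)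
    {y : ℝ} (hy : 0 ≤ y) : IntegrableOn (fun z => hk v y z * f z) (Ioi (0 : ℝ)) := by
  have hgi : Integrable (fun z => Real.exp (-((y - z) ^ 2 / (2 * v))) / Real.sqrt (2 * Real.pi * v) * B) :=
    (((gi58 hv).comp_sub_left y).div_const _).mul_const _
  refine hgi.integrableOn.mono' ?_ ?_
  · exact (((hk_cont58 v).comp (by fun_prop : Continuous fun z : ℝ => (y, z))).measurable.mul hf).aestronglyMeasurable
  · rw [ae_restrict_iff' measurableSet_Ioi]
    refine Filter.Eventually.of_forall (fun z hz => ?_)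
    have hz' : (0 : ℝ) < z := hz
    rw [norm_mul, Real.norm_eq_abs, Real.norm_eq_abs, abs_of_nonneg (hk_nonneg hv hy hz'.le)]
    exact mul_le_mul (hk_le58 hv y z) (hB z hz'.le) (abs_nonneg _) (by positivity)

private theorem la_int58 {v B : ℝ} (hv : 0 < v) {f : ℝ → ℝ} (hf : Measurable f) (hB : ∀ z, 0 ≤ z → |f z| ≤ B) :
    IntegrableOn (fun z => rho v z * f z) (Ioi (0 : ℝ)) := by
  have hgi : Integrable (fun z => rho v z * B) := by
    unfold rho
    exact ((gxi58 hv).div_const _).mul_const _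
  refine hgi.integrableOn.mono' ?_ ?_
  · exact ((rho_cont58 v).measurable.mul hf).aestronglyMeasurable
  · rw [ae_restrict_iff' measurableSet_Ioi]
    refine Filter.Eventually.of_forall (fun z hz => ?_)
    have hz' : (0 : ℝ) < z := hz
    rw [norm_mul, Real.norm_eq_abs, Real.norm_eq_abs, abs_of_nonneg (rho_nonneg58 hv hz'.le)]
    exact mul_le_mul_of_nonneg_left (hB z hz'.le) (rho_nonneg58 hv hz'.le)

/-! ### Tonelli for the first coordinate -/

private theorem tonelli58 {p : ℕ} {F : (Fin (p + 1) → ℝ) → ENNReal} (hF : Measurable F) :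
    ∫⁻ z in {z : Fin (p + 1) → ℝ | ∀ i, 0 < z i}, F z =
      ∫⁻ a in Ioi (0 : ℝ), ∫⁻ z in {z : Fin p → ℝ | ∀ i, 0 < z i}, F (Fin.cons a z) := by
  have h := (volume_preserving_piFinSuccAbove (fun _ : Fin (p + 1) => ℝ) 0).symm
  have h1 := h.setLIntegral_comp_preimage_emb (MeasurableEquiv.measurableEmbedding _) F
    {z : Fin (p + 1) → ℝ | ∀ i, 0 < z i}
  rw [← h1]
  have e : ∀ q : ℝ × (Fin p → ℝ), (MeasurableEquiv.piFinSuccAbove (fun _ : Fin (p + 1) => ℝ) 0).symm q =
      Fin.cons q.1 q.2 := by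
    intro q
    funext i
    refine Fin.cases ?_ (fun j => ?_) i
    · simp [MeasurableEquiv.piFinSuccAbove, Fin.insertNthEquiv]
    · simp [MeasurableEquiv.piFinSuccAbove, Fin.insertNthEquiv]
  have hS : (MeasurableEquiv.piFinSuccAbove (fun _ : Fin (p + 1) => ℝ) 0).symm ⁻¹'
      {z : Fin (p + 1) → ℝ | ∀ i, 0 < z i} = Ioi (0 : ℝ) ×ˢ {z : Fin p → ℝ | ∀ i, 0 < z i} := by
    ext q
    simp only [mem_preimage, Set.mem_ofPred_eq, mem_prod, mem_Ioi, e]
    constructor
    · intro h2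
      exact ⟨by simpa using h2 0, fun i => by simpa using h2 i.succ⟩
    · rintro ⟨h2, h3⟩ i
      refine Fin.cases ?_ (fun j => ?_) i
      · simpa using h2
      · simpa using h3 j
  rw [hS]
  simp only [e]
  have hm : Measurable fun q : ℝ × (Fin p → ℝ) => F (Fin.cons q.1 q.2) := by
    have h2 : (fun q : ℝ × (Fin p → ℝ) => F (Fin.cons q.1 q.2)) = fun q =>
        F ((MeasurableEquiv.piFinSuccAbove (fun _ : Fin (p + 1) => ℝ) 0).symm q) := by
      funext q
      rw [e]
    rw [h2]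
    exact hF.comp (MeasurableEquiv.measurable _)
  rw [Measure.volume_eq_prod, setLIntegral_prod _ hm.aemeasurable]

/-! ### The kernels -/

private noncomputable def KF58 (g : ℝ) : (p : ℕ) → ℝ → (Fin p → ℝ) → ℝ → (Fin p → ℝ) → ℝ
  | 0, t, _, y, _ => rho (g * (2 - t)) y
  | p + 1, t, s, y, z => hk (g * (1 + s 0 - t)) y (z 0) *
      KF58 g p (1 + s 0) (fun i => s i.succ) (z 0) (fun i => z i.succ)

private theorem KF_meas58 (g : ℝ) : ∀ (p : ℕ) (t : ℝ) (s : Fin p → ℝ),
    Measurable fun q : ℝ × (Fin p → ℝ) => KF58 g p t s q.1 q.2 := by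
  intro p
  induction p with
  | zero =>
    intro t s
    exact rho_meas58 _ measurable_fst
  | succ p ih =>
    intro t s
    show Measurable fun q : ℝ × (Fin (p + 1) → ℝ) => hk (g * (1 + s 0 - t)) q.1 (q.2 0) *
      KF58 g p (1 + s 0) (fun i => s i.succ) (q.2 0) (fun i => q.2 i.succ)
    have h1 : Measurable fun q : ℝ × (Fin (p + 1) → ℝ) => q.2 0 :=
      (measurable_pi_apply 0).comp measurable_snd
    have h2 : Measurable fun q : ℝ × (Fin (p + 1) → ℝ) => fun i : Fin p => q.2 i.succ :=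
      measurable_pi_lambda _ fun i => (measurable_pi_apply i.succ).comp measurable_snd
    have h3 := (ih (1 + s 0) fun i => s i.succ).comp (h1.prodMk h2)
    exact (hk_meas58 (g * (1 + s 0 - t)) measurable_fst h1).mul h3

private theorem lint_bl58 {g : ℝ} (hg : 0 < g) : ∀ (p : ℕ) (t : ℝ) (s : Fin p → ℝ) (φ : Fin p → ℝ → ℝ),
    Inc t (List.ofFn fun i => (1 + s i, φ i)) → (∀ i, Measurable (φ i)) → (∀ i z, 0 ≤ φ i z ∧ φ i z ≤ 1) →
    ∀ y, 0 ≤ y → ENNReal.ofReal (Bl g t (List.ofFn fun i => (1 + s i, φ i)) y) =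
      ∫⁻ z in {z : Fin p → ℝ | ∀ i, 0 < z i}, ENNReal.ofReal (KF58 g p t s y z * ∏ i, φ i (z i)) ∧
      0 ≤ Bl g t (List.ofFn fun i => (1 + s i, φ i)) y := by
  intro p
  induction p with
  | zero =>
    intro t s φ hi _ _ y hy
    have hi' : t < 2 := hi
    have hS : {z : Fin 0 → ℝ | ∀ i, 0 < z i} = univ := by
      ext z
      simp
    constructor
    · rw [hS, Measure.restrict_univ]
      show ENNReal.ofReal (rho (g * (2 - t)) y) = ∫⁻ z : Fin 0 → ℝ, ENNReal.ofReal (rho (g * (2 - t)) y * _)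
      simp only [Finset.univ_eq_empty, Finset.prod_empty, mul_one, lintegral_const]
      rw [show (volume (univ : Set (Fin 0 → ℝ))) = 1 by rw [volume_pi, Measure.pi_of_empty]; simp, mul_one]
    · exact rho_nonneg58 (mul_pos hg (by linarith)) hy
  | succ p ih =>
    intro t s φ hi hφ hφ1 y hy
    rw [List.ofFn_succ] at hi ⊢
    obtain ⟨hi1, hi2⟩ := hi
    simp only at hi1 hi2
    have hv : 0 < g * (1 + s 0 - t) := mul_pos hg (by linarith)
    have IH := ih (1 + s 0) (fun i => s i.succ) (fun i => φ i.succ) hi2 (fun i => hφ _) (fun i => hφ1 _)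
    have hcz := bl_cz hg (List.ofFn fun i : Fin p => (1 + s i.succ, φ i.succ)) (1 + s 0) hi2 (by
      intro a ha
      rw [List.mem_ofFn] at ha
      obtain ⟨i, rfl⟩ := ha
      exact ⟨hφ _, fun z => by rw [abs_of_nonneg (hφ1 _ z).1]; exact (hφ1 _ z).2⟩)
    have hbz := mul_bz (hφ 0) (fun z => by rw [abs_of_nonneg (hφ1 0 z).1]; exact (hφ1 0 z).2) hcz
    obtain ⟨B, hB⟩ := hbz.bdd
    have hint := tv_int58 hv hbz.meas hB hy
    have hnn : ∀ z, 0 < z → 0 ≤ hk (g * (1 + s 0 - t)) y z * (φ 0 z *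
        Bl g (1 + s 0) (List.ofFn fun i : Fin p => (1 + s i.succ, φ i.succ)) z) := fun z hz =>
      mul_nonneg (hk_nonneg hv hy hz.le) (mul_nonneg (hφ1 0 z).1 (IH z hz.le).2)
    refine ⟨?_, setIntegral_nonneg measurableSet_Ioi hnn⟩
    show ENNReal.ofReal (∫ z in Ioi (0 : ℝ), hk (g * (1 + s 0 - t)) y z * (φ 0 z *
        Bl g (1 + s 0) (List.ofFn fun i : Fin p => (1 + s i.succ, φ i.succ)) z)) = _
    rw [ofReal_integral_eq_lintegral_ofReal hint
      ((ae_restrict_iff' measurableSet_Ioi).2 (Filter.Eventually.of_forall hnn))]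
    have hmeas : Measurable fun z : Fin (p + 1) → ℝ =>
        ENNReal.ofReal (KF58 g (p + 1) t s y z * ∏ i, φ i (z i)) := by
      have h2 := (KF_meas58 g (p + 1) t s).comp (measurable_const.prodMk measurable_id :
        Measurable fun z : Fin (p + 1) → ℝ => (y, z))
      have h3 : Measurable fun z : Fin (p + 1) → ℝ => ∏ i, φ i (z i) :=
        Finset.measurable_prod _ fun i _ => (hφ i).comp (measurable_pi_apply i)
      exact ENNReal.measurable_ofReal.comp (h2.mul h3)
    rw [tonelli58 hmeas]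
    refine setLIntegral_congr_fun measurableSet_Ioi fun a ha => ?_
    have ha' : 0 < a := ha
    have h0 : 0 ≤ hk (g * (1 + s 0 - t)) y a * φ 0 a := mul_nonneg (hk_nonneg hv hy ha'.le) (hφ1 0 a).1
    rw [← mul_assoc, ENNReal.ofReal_mul h0, (IH a ha'.le).1, ← lintegral_const_mul]
    · refine lintegral_congr fun z => ?_
      rw [← ENNReal.ofReal_mul h0]
      congr 1
      rw [Fin.prod_univ_succ]
      show _ = hk (g * (1 + s 0 - t)) y ((Fin.cons a z : Fin (p + 1) → ℝ) 0) *
        KF58 g p (1 + s 0) (fun i => s i.succ) ((Fin.cons a z : Fin (p + 1) → ℝ) 0)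
          (fun i => (Fin.cons a z : Fin (p + 1) → ℝ) i.succ) * _
      simp only [Fin.cons_zero, Fin.cons_succ]
      ring
    · have h2 := (KF_meas58 g p (1 + s 0) fun i => s i.succ).comp (measurable_const.prodMk measurable_id :
        Measurable fun z : Fin p → ℝ => (a, z))
      have h3 : Measurable fun z : Fin p → ℝ => ∏ i, φ i.succ (z i) :=
        Finset.measurable_prod _ fun i _ => (hφ i.succ).comp (measurable_pi_apply i)
      exact ENNReal.measurable_ofReal.comp (h2.mul h3)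

private theorem KF_dg58 (g : ℝ) : ∀ (p : ℕ) (s z : Fin (p + 1) → ℝ),
    KF58 g p (1 + s 0) (fun i => s i.succ) (z 0) (fun i => z i.succ) =
      (∏ i : Fin p, hk (g * (s i.succ - s i.castSucc)) (z i.castSucc) (z i.succ)) *
        rho (g * (1 - s (Fin.last p))) (z (Fin.last p)) := by
  intro p
  induction p with
  | zero =>
    intro s z
    show rho (g * (2 - (1 + s 0))) (z 0) = _
    simp only [Finset.univ_eq_empty, Finset.prod_empty, one_mul]
    have h1 : g * (2 - (1 + s 0)) = g * (1 - s 0) := by ring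
    rw [h1]
    rfl
  | succ p ih =>
    intro s z
    have h1 := ih (fun i => s i.succ) (fun i => z i.succ)
    show hk (g * (1 + s (Fin.succ 0) - (1 + s 0))) (z 0) (z (Fin.succ 0)) *
      KF58 g p (1 + s (Fin.succ 0)) (fun i => s i.succ.succ) (z (Fin.succ 0)) (fun i => z i.succ.succ) = _
    rw [h1, Fin.prod_univ_succ]
    have h2 : g * (1 + s (Fin.succ 0) - (1 + s 0)) = g * (s (Fin.succ 0) - s 0) := by ring
    rw [h2]
    simp only [Fin.castSucc_zero, Fin.succ_castSucc, Fin.succ_last]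
    ring

theorem dg_nonneg {g : ℝ} (hg : 0 < g) {p : ℕ} {s z : Fin (p + 1) → ℝ} (hs : StrictMono s)
    (hs1 : ∀ i, -1 < s i ∧ s i < 1) (hz : z ∈ pos p) : 0 ≤ dg g s z := by
  have hz' : ∀ i, 0 < z i := hz
  unfold dg
  refine mul_nonneg (mul_nonneg ?_ (Finset.prod_nonneg fun i _ => ?_)) ?_
  · exact rho_nonneg58 (mul_pos hg (by linarith [(hs1 0).1])) (hz' _).le
  · exact hk_nonneg (mul_pos hg (by linarith [hs (Fin.castSucc_lt_succ (i := i))])) (hz' _).le (hz' _).le
  · exact rho_nonneg58 (mul_pos hg (by linarith [(hs1 (Fin.last p)).2])) (hz' _).le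

theorem dg_meas (g : ℝ) {p : ℕ} (s : Fin (p + 1) → ℝ) : Measurable fun z => dg g s z := by
  unfold dg
  refine Measurable.mul (Measurable.mul ?_ (Finset.measurable_prod _ fun i _ => ?_)) ?_
  · exact rho_meas58 _ (measurable_pi_apply _)
  · exact hk_meas58 _ (measurable_pi_apply _) (measurable_pi_apply _)
  · exact rho_meas58 _ (measurable_pi_apply _)

private theorem inc_ofFn58 : ∀ (p : ℕ) (s : Fin p → ℝ) (φ : Fin p → ℝ → ℝ) (r : ℝ), r < 2 →
    (∀ i, r < 1 + s i) → (∀ i, 1 + s i < 2) → StrictMono s → Inc r (List.ofFn fun i => (1 + s i, φ i)) := by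
  intro p
  induction p with
  | zero =>
    intro s φ r hr _ _ _
    rw [List.ofFn_zero]
    exact hr
  | succ p ih =>
    intro s φ r hr h1 h2 h3
    rw [List.ofFn_succ]
    refine ⟨h1 0, ?_⟩
    refine ih (fun i => s i.succ) (fun i => φ i.succ) _ (h2 0) (fun i => ?_) (fun i => h2 _) ?_
    · linarith [h3 (Fin.succ_pos i)]
    · intro i j hij
      exact h3 (Fin.succ_lt_succ_iff.2 hij)

theorem ml_lint {g : ℝ} (hg : 0 < g) {p : ℕ} {s : Fin (p + 1) → ℝ} (hs : StrictMono s)
    (hs1 : ∀ i, -1 < s i ∧ s i < 1) {φ : Fin (p + 1) → ℝ → ℝ} (hφ : ∀ i, Measurable (φ i))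
    (hφ1 : ∀ i z, 0 ≤ φ i z ∧ φ i z ≤ 1) :
    ENNReal.ofReal (Fe g (p + 1) s φ) = ∫⁻ z in pos p, ENNReal.ofReal (dg g s z * ∏ i, φ i (z i)) ∧
      0 ≤ Fe g (p + 1) s φ := by
  have hi : Inc 0 (List.ofFn fun i => (1 + s i, φ i)) :=
    inc_ofFn58 (p + 1) s φ 0 (by norm_num) (fun i => by linarith [(hs1 i).1])
      (fun i => by linarith [(hs1 i).2]) hs
  unfold Fe
  rw [List.ofFn_succ] at hi ⊢
  obtain ⟨hi1, hi2⟩ := hi
  simp only at hi1 hi2
  have hv : 0 < g * (1 + s 0) := mul_pos hg hi1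
  have IH := lint_bl58 hg p (1 + s 0) (fun i => s i.succ) (fun i => φ i.succ) hi2 (fun i => hφ _) (fun i => hφ1 _)
  have hcz := bl_cz hg (List.ofFn fun i : Fin p => (1 + s i.succ, φ i.succ)) (1 + s 0) hi2 (by
    intro a ha
    rw [List.mem_ofFn] at ha
    obtain ⟨i, rfl⟩ := ha
    exact ⟨hφ _, fun z => by rw [abs_of_nonneg (hφ1 _ z).1]; exact (hφ1 _ z).2⟩)
  have hbz := mul_bz (hφ 0) (fun z => by rw [abs_of_nonneg (hφ1 0 z).1]; exact (hφ1 0 z).2) hcz
  obtain ⟨B, hB⟩ := hbz.bdd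
  have hint := la_int58 hv hbz.meas hB
  have hnn : ∀ z, 0 < z → 0 ≤ rho (g * (1 + s 0)) z * (φ 0 z *
      Bl g (1 + s 0) (List.ofFn fun i : Fin p => (1 + s i.succ, φ i.succ)) z) := fun z hz =>
    mul_nonneg (rho_nonneg58 hv hz.le) (mul_nonneg (hφ1 0 z).1 (IH z hz.le).2)
  refine ⟨?_, setIntegral_nonneg measurableSet_Ioi hnn⟩
  show ENNReal.ofReal (∫ z in Ioi (0 : ℝ), rho (g * (1 + s 0)) z * (φ 0 z *
      Bl g (1 + s 0) (List.ofFn fun i : Fin p => (1 + s i.succ, φ i.succ)) z)) = _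
  rw [ofReal_integral_eq_lintegral_ofReal hint
    ((ae_restrict_iff' measurableSet_Ioi).2 (Filter.Eventually.of_forall hnn))]
  have hmeas : Measurable fun z : Fin (p + 1) → ℝ => ENNReal.ofReal (dg g s z * ∏ i, φ i (z i)) := by
    refine ENNReal.measurable_ofReal.comp (Measurable.mul (dg_meas g s) ?_)
    exact Finset.measurable_prod _ fun i _ => (hφ i).comp (measurable_pi_apply i)
  unfold pos
  rw [tonelli58 hmeas]
  refine setLIntegral_congr_fun measurableSet_Ioi fun a ha => ?_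
  have ha' : 0 < a := ha
  have h0 : 0 ≤ rho (g * (1 + s 0)) a * φ 0 a := mul_nonneg (rho_nonneg58 hv ha'.le) (hφ1 0 a).1
  rw [← mul_assoc, ENNReal.ofReal_mul h0, (IH a ha'.le).1, ← lintegral_const_mul]
  · refine lintegral_congr fun z => ?_
    rw [← ENNReal.ofReal_mul h0]
    congr 1
    have h3 := KF_dg58 g p s (Fin.cons a z)
    simp only [Fin.cons_zero, Fin.cons_succ] at h3
    unfold dg
    rw [h3, Fin.prod_univ_succ (f := fun i => φ i ((Fin.cons a z : Fin (p + 1) → ℝ) i))]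
    simp only [Fin.cons_zero, Fin.cons_succ]
    ring
  · have h2 := (KF_meas58 g p (1 + s 0) fun i => s i.succ).comp (measurable_const.prodMk measurable_id :
      Measurable fun z : Fin p → ℝ => (a, z))
    have h3 : Measurable fun z : Fin p → ℝ => ∏ i, φ i.succ (z i) :=
      Finset.measurable_prod _ fun i _ => (hφ i.succ).comp (measurable_pi_apply i)
    exact ENNReal.measurable_ofReal.comp (h2.mul h3)

end Pool.Agent.Helper49.FL
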