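import Pool.Agent.Helper49.FL.Def
import Pool.Agent.Helper49.DL.Contour

/-!
Block BE-T1: geometry of the dual edges.

Paper proofs. `dist` on `ℝ × ℝ` is the sup distance (`Prod.dist_eq`, `Real.dist_eq`). `tip (a, b), true = (a + 1, b)`, `tip ((a, b), false) = (a, b + 1)`.
* `dual_h`: `max |x - a| |y - b| = 1/2` and `max |x - a - 1| |y - b| = 1/2` iff `x = a + 1/2` and `|y - b| ≤ 1/2` (if `x ≠ a + 1/2` then `|x - a| ≠ |x - a - 1|` and both are `≤ 1/2`, so `x - a ≤ 1/2` and `a + 1 - x ≤ 1/2`, sum `1`: both are `1/2`). `dual_v`: the same.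
* `dual_conn`, `dual_closed`, `dual_near`: from the two formulas (`isPreconnected_Icc`, products of preconnected/closed sets, or the segment).
* `dual_meet`: the common points of two dual edges are common end points `(p.1 + 1/2, p.2 + 1/2)`, `p` an integer point, or the edges are equal: parallel edges on the same line with distinct integer centres at distance `1`, or a vertical and a horizontal segment which meet at `(a + 1/2, b' + 1/2)` with `b' + 1/2 ∈ {b - 1/2, b + 1/2}`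
  and `a + 1/2 ∈ {a' - 1/2, a' + 1/2}` as `a, b, a', b'` are integers. `(p.1 + 1/2, p.2 + 1/2) ∈ dual e ↔ Side p e`. Every edge is a side of some plaquette.
* `locfin`: a bounded set meets only finitely many dual edges (`dual_near`: all points of `dual e` are at distance `≤ 1` from `e.1`; finitely many integer points in a ball); so the family `dual` is locally finite.
-/

open Set

namespace Pool.Agent.Helper49.FL

open Pool.Agent.Helper49.DL

private lemma mx85 (u v : ℝ) : (max |u| |v| = 1 / 2 ∧ max |u - 1| |v| = 1 / 2) ↔ (u = 1 / 2 ∧ |v| ≤ 1 / 2) := by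
  constructor
  · rintro ⟨h1, h2⟩
    have h3 : |u| ≤ 1 / 2 := h1 ▸ le_max_left _ _
    have h4 : |v| ≤ 1 / 2 := h1 ▸ le_max_right _ _
    have h5 : |u - 1| ≤ 1 / 2 := h2 ▸ le_max_left _ _
    rw [abs_le] at h3 h5
    exact ⟨by linarith, h4⟩
  · rintro ⟨rfl, h⟩
    have h1 : |(1 / 2 : ℝ)| = 1 / 2 := abs_of_pos (by norm_num)
    have h2 : |(1 / 2 : ℝ) - 1| = 1 / 2 := by
      rw [abs_of_neg (by norm_num)]
      norm_num
    rw [h1, h2]
    exact ⟨max_eq_left h, max_eq_left h⟩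

theorem dual_h (a b : ℤ) : dual ((a, b), true) = {x : ℝ × ℝ | x.1 = a + 1 / 2 ∧ |x.2 - b| ≤ 1 / 2} := by
  ext x
  have h := mx85 (x.1 - a) (x.2 - b)
  simp only [dual, tip, Set.mem_ofPred_eq, Prod.dist_eq, Real.dist_eq, if_true, Int.cast_add, Int.cast_one]
  have e : x.1 - ((a : ℝ) + 1) = x.1 - a - 1 := by ring
  rw [e, h]
  constructor
  · rintro ⟨h1, h2⟩
    exact ⟨by linarith, h2⟩
  · rintro ⟨h1, h2⟩
    exact ⟨by linarith, h2⟩

theorem dual_v (a b : ℤ) : dual ((a, b), false) = {x : ℝ × ℝ | |x.1 - a| ≤ 1 / 2 ∧ x.2 = b + 1 / 2} := by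
  ext x
  have h := mx85 (x.2 - b) (x.1 - a)
  simp only [dual, tip, Set.mem_ofPred_eq, Prod.dist_eq, Real.dist_eq, Bool.false_eq_true, if_false, Int.cast_add,
    Int.cast_one]
  have e : x.2 - ((b : ℝ) + 1) = x.2 - b - 1 := by ring
  rw [e, max_comm |x.1 - a| |x.2 - b|, max_comm |x.1 - a| |x.2 - b - 1|, h]
  constructor
  · rintro ⟨h1, h2⟩
    exact ⟨h2, by linarith⟩
  · rintro ⟨h1, h2⟩
    exact ⟨by linarith, h1⟩

private lemma dual_h' (a b : ℤ) :
    dual ((a, b), true) = {((a : ℝ) + 1 / 2)} ×ˢ Icc ((b : ℝ) - 1 / 2) ((b : ℝ) + 1 / 2) := by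
  rw [dual_h]
  ext x
  rw [Set.mem_ofPred_eq, Set.mem_prod, Set.mem_singleton_iff, Set.mem_Icc, abs_le]
  constructor
  · rintro ⟨h1, h2, h3⟩
    exact ⟨h1, by linarith, by linarith⟩
  · rintro ⟨h1, h2, h3⟩
    exact ⟨h1, by linarith, by linarith⟩

private lemma dual_v' (a b : ℤ) :
    dual ((a, b), false) = Icc ((a : ℝ) - 1 / 2) ((a : ℝ) + 1 / 2) ×ˢ {((b : ℝ) + 1 / 2)} := by
  rw [dual_v]
  ext x
  rw [Set.mem_ofPred_eq, Set.mem_prod, Set.mem_singleton_iff, Set.mem_Icc, abs_le]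
  constructor
  · rintro ⟨⟨h1, h2⟩, h3⟩
    exact ⟨⟨by linarith, by linarith⟩, h3⟩
  · rintro ⟨⟨h1, h2⟩, h3⟩
    exact ⟨⟨by linarith, by linarith⟩, h3⟩

theorem dual_conn (e : Edge) : IsPreconnected (dual e) := by
  obtain ⟨⟨a, b⟩, c⟩ := e
  cases c
  · rw [dual_v']
    exact isPreconnected_Icc.prod isPreconnected_singleton
  · rw [dual_h']
    exact isPreconnected_singleton.prod isPreconnected_Icc

theorem dual_closed (e : Edge) : IsClosed (dual e) := by
  obtain ⟨⟨a, b⟩, c⟩ := e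
  cases c
  · rw [dual_v']
    exact isClosed_Icc.prod isClosed_singleton
  · rw [dual_h']
    exact isClosed_singleton.prod isClosed_Icc

theorem dual_ne (e : Edge) : (dual e).Nonempty := by
  obtain ⟨⟨a, b⟩, c⟩ := e
  cases c
  · refine ⟨((a : ℝ), (b : ℝ) + 1 / 2), ?_⟩
    rw [dual_v, Set.mem_ofPred_eq]
    refine ⟨?_, rfl⟩
    show |(a : ℝ) - a| ≤ 1 / 2
    rw [sub_self, abs_zero]
    norm_num
  · refine ⟨((a : ℝ) + 1 / 2, (b : ℝ)), ?_⟩
    rw [dual_h, Set.mem_ofPred_eq]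
    refine ⟨rfl, ?_⟩
    show |(b : ℝ) - b| ≤ 1 / 2
    rw [sub_self, abs_zero]
    norm_num

theorem dual_near {e : Edge} {x : ℝ × ℝ} (h : x ∈ dual e) : dist x ((e.1.1 : ℝ), (e.1.2 : ℝ)) ≤ 1 := by
  rw [h.1]
  norm_num

private lemma zcast85 {p q : ℤ} (h : (p : ℝ) ≤ q) : p ≤ q := by exact_mod_cast h

private lemma half85 (u : ℝ) : |u + 1 / 2 - u| ≤ 1 / 2 ∧ |u + 1 / 2 - (u + 1)| ≤ 1 / 2 := by
  constructor
  · have : u + 1 / 2 - u = 1 / 2 := by ring
    rw [this, abs_of_pos (by norm_num)]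
  · have : u + 1 / 2 - (u + 1) = -(1 / 2) := by ring
    rw [this, abs_neg, abs_of_pos (by norm_num)]

private lemma corner85 {p : ℤ × ℤ} {e : Edge} (h : Side p e) :
    ((p.1 : ℝ) + 1 / 2, (p.2 : ℝ) + 1 / 2) ∈ dual e := by
  obtain ⟨a, b⟩ := p
  have ha := half85 (a : ℝ)
  have hb := half85 (b : ℝ)
  rcases h with rfl | rfl | rfl | rfl
  · rw [dual_h]
    exact ⟨rfl, hb.1⟩
  · rw [dual_v]
    exact ⟨ha.1, rfl⟩
  · have e1' : (((a, b) : ℤ × ℤ) + e1, false) = (((a + 1, b) : ℤ × ℤ), false) := by simp [e1]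
    rw [e1', dual_v, Set.mem_ofPred_eq]
    refine ⟨?_, rfl⟩
    push_cast
    exact ha.2
  · have e2' : (((a, b) : ℤ × ℤ) + e2, true) = (((a, b + 1) : ℤ × ℤ), true) := by simp [e2]
    rw [e2', dual_h, Set.mem_ofPred_eq]
    refine ⟨rfl, ?_⟩
    push_cast
    exact hb.2

private lemma touch_symm85 {e f : Edge} (h : Touch e f) : Touch f e := by
  obtain ⟨p, h1, h2⟩ := h
  exact ⟨p, h2, h1⟩

private lemma side_e1 (a b : ℤ) : Side (a, b) ((a + 1, b), false) := by
  right; right; left; simp [e1]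

private lemma side_e2 (a b : ℤ) : Side (a, b) ((a, b + 1), true) := by
  right; right; right; simp [e2]

private lemma side_t (a b : ℤ) : Side (a, b) ((a, b), true) := Or.inl rfl

private lemma side_f (a b : ℤ) : Side (a, b) ((a, b), false) := Or.inr (Or.inl rfl)

private lemma hv85 {a b a' b' : ℤ} {x : ℝ × ℝ} (h1 : x ∈ dual ((a, b), true)) (h2 : x ∈ dual ((a', b'), false)) :
    Touch ((a, b), true) ((a', b'), false) := by
  rw [dual_h, Set.mem_ofPred_eq, abs_le] at h1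
  rw [dual_v, Set.mem_ofPred_eq, abs_le] at h2
  obtain ⟨h3, h4, h5⟩ := h1
  obtain ⟨⟨h6, h7⟩, h8⟩ := h2
  have i1 : a ≤ a' := zcast85 (by linarith)
  have i2 : a' ≤ a + 1 := zcast85 (by push_cast; linarith)
  have i3 : b' ≤ b := zcast85 (by linarith)
  have i4 : b ≤ b' + 1 := zcast85 (by push_cast; linarith)
  refine ⟨(a, b'), ?_, ?_⟩
  · have : b = b' ∨ b = b' + 1 := by omega
    rcases this with rfl | rfl
    · exact side_t _ _
    · exact side_e2 _ _
  · have : a' = a ∨ a' = a + 1 := by omega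
    rcases this with rfl | rfl
    · exact side_f _ _
    · exact side_e1 _ _

theorem dual_meet (e f : Edge) : (dual e ∩ dual f).Nonempty ↔ Touch e f := by
  constructor
  · rintro ⟨x, hx, hy⟩
    obtain ⟨⟨a, b⟩, c⟩ := e
    obtain ⟨⟨a', b'⟩, c'⟩ := f
    cases c <;> cases c'
    · rw [dual_v, Set.mem_ofPred_eq, abs_le] at hx hy
      obtain ⟨⟨h1, h2⟩, h3⟩ := hx
      obtain ⟨⟨h4, h5⟩, h6⟩ := hy
      have i1 : b ≤ b' := zcast85 (by linarith)
      have i2 : b' ≤ b := zcast85 (by linarith)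
      have i3 : a ≤ a' + 1 := zcast85 (by push_cast; linarith)
      have i4 : a' ≤ a + 1 := zcast85 (by push_cast; linarith)
      obtain rfl : b = b' := le_antisymm i1 i2
      have : a' = a ∨ a' = a + 1 ∨ a = a' + 1 := by omega
      rcases this with rfl | rfl | rfl
      · exact ⟨_, side_f _ _, side_f _ _⟩
      · exact ⟨_, side_f _ _, side_e1 _ _⟩
      · exact ⟨_, side_e1 _ _, side_f _ _⟩
    · exact touch_symm85 (hv85 hy hx)
    · exact hv85 hx hy
    · rw [dual_h, Set.mem_ofPred_eq, abs_le] at hx hy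
      obtain ⟨h3, h1, h2⟩ := hx
      obtain ⟨h6, h4, h5⟩ := hy
      have i1 : a ≤ a' := zcast85 (by linarith)
      have i2 : a' ≤ a := zcast85 (by linarith)
      have i3 : b ≤ b' + 1 := zcast85 (by push_cast; linarith)
      have i4 : b' ≤ b + 1 := zcast85 (by push_cast; linarith)
      obtain rfl : a = a' := le_antisymm i1 i2
      have : b' = b ∨ b' = b + 1 ∨ b = b' + 1 := by omega
      rcases this with rfl | rfl | rfl
      · exact ⟨_, side_t _ _, side_t _ _⟩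
      · exact ⟨_, side_t _ _, side_e2 _ _⟩
      · exact ⟨_, side_e2 _ _, side_t _ _⟩
  · rintro ⟨p, h1, h2⟩
    exact ⟨_, corner85 h1, corner85 h2⟩

theorem fin_meet {B : Set (ℝ × ℝ)} (hB : Bornology.IsBounded B) : {e : Edge | (dual e ∩ B).Nonempty}.Finite := by
  obtain ⟨R, hR⟩ := hB.subset_closedBall (0 : ℝ × ℝ)
  obtain ⟨N, hN⟩ := exists_nat_ge (R + 1)
  refine Set.Finite.subset
    (((Set.finite_Icc (-(N : ℤ)) N).prod (Set.finite_Icc (-(N : ℤ)) N)).prod (Set.finite_univ : (univ : Set Bool).Finite)) ?_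
  rintro ⟨⟨a, b⟩, c⟩ ⟨x, hx, hxB⟩
  have h1 := dual_near hx
  have h2 : dist x (0 : ℝ × ℝ) ≤ R := hR hxB
  have h3 : dist ((a : ℝ), (b : ℝ)) (0 : ℝ × ℝ) ≤ N := by
    refine (dist_triangle_left _ _ x).trans ?_
    linarith
  rw [Prod.dist_eq, max_le_iff, Real.dist_eq, Real.dist_eq] at h3
  simp only [Prod.fst_zero, Prod.snd_zero, sub_zero, abs_le] at h3
  obtain ⟨⟨h4, h5⟩, h6, h7⟩ := h3
  refine ⟨⟨⟨?_, ?_⟩, ?_, ?_⟩, Set.mem_univ _⟩
  · exact zcast85 (by push_cast; exact h4)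
  · exact zcast85 (by push_cast; exact h5)
  · exact zcast85 (by push_cast; exact h6)
  · exact zcast85 (by push_cast; exact h7)

theorem locfin : LocallyFinite dual := by
  intro x
  exact ⟨Metric.ball x 1, Metric.ball_mem_nhds x one_pos, fin_meet Metric.isBounded_ball⟩

theorem inf_unbdd {S : Set Edge} (hS : S.Infinite) : ¬ Bornology.IsBounded (⋃ e ∈ S, dual e) := by
  intro h
  refine hS ((fin_meet h).subset fun e he => ?_)
  obtain ⟨x, hx⟩ := dual_ne e
  exact ⟨x, hx, Set.mem_biUnion he hx⟩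

theorem fin_bdd {S : Set Edge} (hS : S.Finite) : Bornology.IsBounded (⋃ e ∈ S, dual e) := by
  rw [Bornology.isBounded_biUnion hS]
  intro e _
  refine Metric.isBounded_closedBall.subset (t := Metric.closedBall ((e.1.1 : ℝ), (e.1.2 : ℝ)) 1) fun x hx => ?_
  exact dual_near hx

end Pool.Agent.Helper49.FL
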