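import Pool.Agent.Helper49.FL.Def
import Pool.Agent.Helper49.RD.Def

/-!
Block BE-G: formula for the diffusion constant.

Paper proof. Let `t = exp (-β)`, `λ = lam t = t (1 + t)/(1 - t) > 0`. `tanh (β/2) = (1 - t)/(1 + t)` (`Real.tanh_eq_sinh_div_cosh`, `Real.sinh_eq`, `Real.cosh_eq`, multiply by `exp (-β/2)`), so `β + log (tanh (β/2)) = - log λ` and `sinh (- log λ) = (1/λ - λ)/2`; `sg t = 2 λ/(1 - λ²)`. (If `λ = 1` both sides are `0`.)
-/

namespace Pool.Agent.Helper49.FL

open Pool.Agent.Helper49.DX Pool.Agent.Helper49.RD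

theorem sg_eq {β : ℝ} (hβ : 0 < β) : sg (Real.exp (-β)) = 1 / Real.sinh (β + Real.log (Real.tanh (β / 2))) := by
  obtain ⟨t, ht⟩ : ∃ t, t = Real.exp (-β) := ⟨_, rfl⟩
  have ht0 : 0 < t := by
    rw [ht]
    exact Real.exp_pos _
  have ht1 : t < 1 := by
    rw [ht]
    exact Real.exp_lt_one_iff.2 (by linarith)
  have h1t : 0 < 1 - t := by linarith
  have hlt : 0 < lam t := by
    unfold lam
    positivity
  have htanh : Real.tanh (β / 2) = (1 - t) / (1 + t) := by
    have e1 : t = Real.exp (-(β / 2)) * Real.exp (-(β / 2)) := by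
      rw [ht, ← Real.exp_add]
      congr 1
      ring
    have e2 : Real.exp (β / 2) * Real.exp (-(β / 2)) = 1 := by
      rw [← Real.exp_add, add_neg_cancel, Real.exp_zero]
    have h3 := Real.exp_pos (β / 2)
    have h4 := Real.exp_pos (-(β / 2))
    rw [Real.tanh_eq_sinh_div_cosh, Real.sinh_eq, Real.cosh_eq, e1]
    have h5 : 0 < 1 + Real.exp (-(β / 2)) * Real.exp (-(β / 2)) := by positivity
    have h6 : 0 < (Real.exp (β / 2) + Real.exp (-(β / 2))) / 2 := by positivity
    rw [div_eq_div_iff h6.ne' h5.ne']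
    linear_combination (Real.exp (-(β / 2))) * e2
  have hlog : β + Real.log (Real.tanh (β / 2)) = -Real.log (lam t) := by
    have hβt : β = -Real.log t := by
      rw [ht, Real.log_exp, neg_neg]
    rw [htanh]
    unfold lam
    rw [Real.log_div h1t.ne' (by positivity), Real.log_div (by positivity) h1t.ne',
      Real.log_mul ht0.ne' (by positivity), hβt]
    ring
  rw [← ht, hlog, Real.sinh_eq, neg_neg, Real.exp_neg, Real.exp_log hlt]
  unfold sg
  have e : ((lam t)⁻¹ - lam t) / 2 = (1 - lam t ^ 2) / (2 * lam t) := by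
    field_simp
  rw [e, one_div_div]

end Pool.Agent.Helper49.FL
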