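import Pool.Agent.Helper49.DL.Contour

/-!
Block BE-I: the unbounded contour is the contour of the dual edge of `{(n + 1, 0), (n + 1, 1)}`.

Paper proof. `ω = eta 0` off the box (`mem_confs`). (1) The bonds `((x, 0), false)`, `x > n` or `x < -n`, are broken, and consecutive ones on one side touch (plaquette `(x, 0)`), so all those with `x > n` are in one contour, and the same for `x < -n`.
(2) `((-n - 1, 0), false)` is in the contour of `((n + 1, 0), false)`: `low_below` (or `gg_low`) for `i = (-n - 1, 0)`, `Low` by `ReflTransGen.refl`, gives `y ≥ 0` with `Interface n ω ((-n - 1, y), false)`, a broken bond off the box, so `y = 0`.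
(3) If `Interface n ω b` then its contour contains the bonds `((x, 0), false)`, `x > n`: infinite (`SameContour` is symmetric).
(4) If the contour of the broken bond `b` is infinite then it contains a (broken) bond with both ends off the box (only finitely many bonds have an end in the box), which is `((x, 0), false)` with `|x| > n` (outside the box `ω (x, y) = true` iff `y ≥ 1`); so it contains `((n + 1, 0), false)` by (1), (2).
-/

open Finset

namespace Pool.Agent.Helper49.FL

open Pool.Agent.Helper49.DL

private lemma touch_h12 (x : ℤ) : Touch ((x, 0), false) ((x + 1, 0), false) :=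
  ⟨(x, 0), Or.inr (Or.inl rfl), Or.inr (Or.inr (Or.inl (by simp [e1])))⟩

private lemma touch_symm_h12 {a b : Bond} (h : Touch a b) : Touch b a := by
  obtain ⟨p, h1, h2⟩ := h
  exact ⟨p, h2, h1⟩

private lemma same_symm_h12 {ω : Cfg} {a b : Bond} (h : SameContour ω a b) :
    SameContour ω b a := by
  induction h with
  | refl => exact Relation.ReflTransGen.refl
  | tail _ h ih => exact Relation.ReflTransGen.head ⟨h.2.1, h.1, touch_symm_h12 h.2.2⟩ ih

private lemma out_h12 {n : ℕ} {ω : Cfg} (hω : ω ∈ confs (box n n) (eta 0)) {i : Site}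
    (hi : i ∉ box n n) : ω i = decide (1 ≤ i.2) := by
  rw [mem_confs] at hω
  rw [hω i hi]
  simp [eta]

private lemma broken_h12 {n : ℕ} {ω : Cfg} (hω : ω ∈ confs (box n n) (eta 0)) {x : ℤ}
    (hx : x < -n ∨ (n : ℤ) < x) : Broken ω ((x, 0), false) := by
  unfold Broken bend
  simp only [Bool.false_eq_true, if_false, e2, Prod.mk_add_mk, add_zero, zero_add, ne_eq]
  rw [out_h12 hω (by rw [mem_box]; simp only; omega), out_h12 hω (by rw [mem_box]; simp only; omega)]
  simp

private lemma right_h12 {n : ℕ} {ω : Cfg} (hω : ω ∈ confs (box n n) (eta 0)) (k : ℕ) :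
    SameContour ω (((n : ℤ) + 1, 0), false) (((n : ℤ) + 1 + k, 0), false) := by
  induction k with
  | zero =>
    simp only [Nat.cast_zero, add_zero]
    exact Relation.ReflTransGen.refl
  | succ k ih =>
    refine Relation.ReflTransGen.tail ih ⟨broken_h12 hω (Or.inr (by omega)),
      broken_h12 hω (Or.inr (by push_cast; omega)), ?_⟩
    have h1 := touch_h12 ((n : ℤ) + 1 + k)
    have h2 : (n : ℤ) + 1 + k + 1 = (n : ℤ) + 1 + (k + 1 : ℕ) := by push_cast; ring
    rwa [h2] at h1

private lemma left_h12 {n : ℕ} {ω : Cfg} (hω : ω ∈ confs (box n n) (eta 0)) (k : ℕ) :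
    SameContour ω ((-(n : ℤ) - 1, 0), false) ((-(n : ℤ) - 1 - k, 0), false) := by
  induction k with
  | zero =>
    simp only [Nat.cast_zero, sub_zero]
    exact Relation.ReflTransGen.refl
  | succ k ih =>
    refine Relation.ReflTransGen.tail ih ⟨broken_h12 hω (Or.inl (by omega)),
      broken_h12 hω (Or.inl (by push_cast; omega)), ?_⟩
    have h1 := touch_symm_h12 (touch_h12 (-(n : ℤ) - 1 - (k + 1 : ℕ)))
    have h2 : -(n : ℤ) - 1 - (k + 1 : ℕ) + 1 = -(n : ℤ) - 1 - k := by push_cast; ring
    rwa [h2] at h1

private lemma cross_h12 {n : ℕ} (hn : 1 ≤ n) {ω : Cfg} (hω : ω ∈ confs (box n n) (eta 0)) :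
    SameContour ω ((-(n : ℤ) - 1, 0), false) (((n : ℤ) + 1, 0), false) := by
  have hout : ∀ y : ℤ, ((-(n : ℤ) - 1, y) : Site) ∉ box n n := by
    intro y
    rw [mem_box]
    simp only
    omega
  have hlow : Low n n ω (-(n : ℤ) - 1, 0) :=
    ⟨(-(n : ℤ) - 1, 0), hout 0, le_rfl, Relation.ReflTransGen.refl⟩
  obtain ⟨y, hy, hI⟩ := low_below hω (by omega) (by omega) hlow
  simp only at hy hI
  have hb := hI.1
  unfold Broken bend at hb
  simp only [Bool.false_eq_true, if_false, e2, Prod.mk_add_mk, add_zero, ne_eq] at hb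
  rw [out_h12 hω (hout y), out_h12 hω (hout (y + 1))] at hb
  have hy0 : y = 0 := by
    by_contra h
    apply hb
    have h1 : 1 ≤ y := by omega
    have h2 : 1 ≤ y + 1 := by omega
    simp [h1, h2]
  rw [hy0] at hI
  exact hI.2

private lemma same_broken_h12 {ω : Cfg} {a b : Bond} (ha : Broken ω a) (h : SameContour ω a b) :
    Broken ω b := by
  induction h with
  | refl => exact ha
  | tail _ h _ => exact h.2.1

theorem inf_iff {n : ℕ} (hn : 1 ≤ n) {ω : Cfg} (hω : ω ∈ confs (box n n) (eta 0)) (b : Bond) :
    (Broken ω b ∧ {f : Bond | SameContour ω b f}.Infinite) ↔ Interface n ω b := by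
  constructor
  · rintro ⟨hb, hinf⟩
    let F : Finset Bond := ((Finset.Icc (-(n : ℤ) - 1) n) ×ˢ (Finset.Icc (-(n : ℤ)) n)) ×ˢ
      Finset.univ
    obtain ⟨f, hf1, hf2⟩ := hinf.exists_notMem_finset F
    have hf1 : SameContour ω b f := hf1
    have hfb := same_broken_h12 hb hf1
    obtain ⟨⟨x, y⟩, c⟩ := f
    have hF : ¬ ((-(n : ℤ) - 1 ≤ x ∧ x ≤ n) ∧ (-(n : ℤ) ≤ y ∧ y ≤ n)) := by
      intro h
      apply hf2
      simp only [F, Finset.mem_product, Finset.mem_Icc, Finset.mem_univ, and_true]
      exact h
    have h1 : ((x, y) : Site) ∉ box n n := by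
      rw [mem_box]
      simp only
      omega
    cases c with
    | true =>
      exfalso
      apply hfb
      have h2 : bend ((x, y), true) ∉ box n n := by
        unfold bend
        rw [mem_box]
        simp only [if_true, e1, Prod.mk_add_mk, add_zero]
        omega
      rw [out_h12 hω h1, out_h12 hω h2]
      simp [bend, e1]
    | false =>
      have h2 : bend ((x, y), false) ∉ box n n := by
        unfold bend
        rw [mem_box]
        simp only [Bool.false_eq_true, if_false, e2, Prod.mk_add_mk, add_zero]
        omega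
      have hy0 : y = 0 := by
        by_contra h
        apply hfb
        rw [out_h12 hω h1, out_h12 hω h2]
        simp only [bend, e2, Bool.false_eq_true, if_false, Prod.mk_add_mk, add_zero,
          decide_eq_decide]
        omega
      subst hy0
      rw [mem_box] at h1
      simp only at h1
      have hx : x < -n ∨ (n : ℤ) < x := by omega
      refine ⟨hb, ?_⟩
      rcases hx with hx | hx
      · have h3 := left_h12 hω (-(n : ℤ) - 1 - x).toNat
        rw [Int.toNat_of_nonneg (by omega)] at h3
        have h4 : -(n : ℤ) - 1 - (-(n : ℤ) - 1 - x) = x := by ring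
        rw [h4] at h3
        exact Relation.ReflTransGen.trans hf1
          (Relation.ReflTransGen.trans (same_symm_h12 h3) (cross_h12 hn hω))
      · have h3 := right_h12 hω (x - (n + 1)).toNat
        rw [Int.toNat_of_nonneg (by omega)] at h3
        have h4 : (n : ℤ) + 1 + (x - (n + 1)) = x := by ring
        rw [h4] at h3
        exact Relation.ReflTransGen.trans hf1 (same_symm_h12 h3)
  · rintro ⟨hb, hc⟩
    refine ⟨hb, ?_⟩
    refine Set.infinite_of_injective_forall_mem (f := fun k : ℕ =>
      ((((n : ℤ) + 1 + k, 0), false) : Bond)) ?_ ?_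
    · intro k l hkl
      simp only [Prod.mk.injEq, add_right_inj, Nat.cast_inj, and_true] at hkl
      exact hkl
    · intro k
      exact Relation.ReflTransGen.trans hc (right_h12 hω k)

end Pool.Agent.Helper49.FL
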