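import Pool.Agent.Helper49.FL.Comp
import Pool.Agent.Helper49.FL.Inf
import Pool.Agent.Helper49.PL.Ht

/-!
Block BE-H: the height of the unbounded contour over real points.

Paper proofs. By `mem_gam` and `inf_iff`: `(t, y) ∈ Gam ω ↔ ∃ e, Interface n ω e ∧ (t, y) ∈ dual e` (the same `Broken`), with `dual_h`, `dual_v`. Let `|t| ≤ n`, `H x = ht n ω x`, the largest `k + 1/2` with `Interface n ω ((x, k), false)` (`ht_iff`; there is at least one such `k`, and they are bounded, `ht_abs`).
* `gp_eq`: (a) `t` is not of the form `x + 1/2`: let `x` be the integer with `|t - x| < 1/2` (`round t`), `|x| ≤ n`. Only the dual edges of the bonds `((x, k), false)` contain points `(t, y)`, namely `(t, k + 1/2)`. So `{y | (t, y) ∈ Gam ω} = {k + 1/2 | Interface n ω ((x, k), false)}` and `Gp ω t = H x`.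
  (b) `t = x + 1/2`: `-n ≤ x`, `x + 1 ≤ n`. `{y | (t, y) ∈ Gam ω}` is the union of the `k + 1/2` with `Interface ((x, k), false)` or `Interface ((x + 1, k), false)`, and of the intervals `[k - 1/2, k + 1/2]` with `Interface ((x, k), true)`. Let `h = max (H x) (H (x + 1))`. If `Interface n ω ((x, k), true)` then `k + 1/2 ≤ h`: otherwise take the
  largest such `k` (finitely many: interface bonds are broken, they have an end in the box, as for horizontal bonds both ends off the box have the same colour); the number of interface bonds among the four sides of the plaquette `(x, k)` is even (`plaq_even`), `((x, k + 1), true)` is not one, `((x, k), true)` is, so one of `((x, k), false)`,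
  `((x + 1, k), false)` is: `k + 1/2 ≤ h`. So `Gp ω t = h ∈ {H x, H (x + 1)}`.
* `gp_int`: `t = x` in (a).
* `path_eq`: `pth` and `path` are the same sums, `gp_int`.
-/

open Set

namespace Pool.Agent.Helper49.FL

open Pool.Agent.Helper49.DL Pool.Agent.Helper49.PL

private lemma mem67 {n : ℕ} (hn : 1 ≤ n) {ω : Conf} (hω : ω ∈ confs (box n n) (eta 0)) (t y : ℝ) :
    (t, y) ∈ Gam ω ↔ (∃ a b : ℤ, Interface n ω ((a, b), true) ∧ t = a + 1 / 2 ∧ |y - b| ≤ 1 / 2) ∨
      ∃ a b : ℤ, Interface n ω ((a, b), false) ∧ |t - a| ≤ 1 / 2 ∧ y = b + 1 / 2 := by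
  rw [mem_gam]
  constructor
  · rintro ⟨⟨⟨a, b⟩, d⟩, hb, hd, hi⟩
    have hI : Interface n ω ((a, b), d) := (inf_iff hn hω _).1 ⟨hb, hi⟩
    cases d
    · right
      rw [dual_v] at hd
      exact ⟨a, b, hI, hd.1, hd.2⟩
    · left
      rw [dual_h] at hd
      exact ⟨a, b, hI, hd.1, hd.2⟩
  · rintro (⟨a, b, hI, h1, h2⟩ | ⟨a, b, hI, h1, h2⟩)
    · have h3 := (inf_iff hn hω _).2 hI
      refine ⟨((a, b), true), h3.1, ?_, h3.2⟩
      rw [dual_h]
      exact ⟨h1, h2⟩
    · have h3 := (inf_iff hn hω _).2 hI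
      refine ⟨((a, b), false), h3.1, ?_, h3.2⟩
      rw [dual_v]
      exact ⟨h1, h2⟩

private lemma top67 {n : ℕ} (hn : 1 ≤ n) {ω : Conf} (hω : ω ∈ confs (box n n) (eta 0)) {x : ℤ} (hx : |x| ≤ n) :
    ∃ k₀ : ℤ, Interface n ω ((x, k₀), false) ∧ (∀ k, Interface n ω ((x, k), false) → k ≤ k₀) ∧
      ht n ω x = k₀ + 1 / 2 := by
  set K : ℤ := ⌊ht n ω x - 1 / 2⌋ with hK
  have h1 : (K : ℝ) ≤ ht n ω x - 1 / 2 := Int.floor_le _
  have hle : ∀ k, Interface n ω ((x, k), false) → k ≤ K := by
    intro k hk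
    have h2 : (k : ℝ) + 1 / 2 ≤ ht n ω x := (ht_iff hn hω hx k).1 ⟨k, le_refl k, hk⟩
    rw [hK, Int.le_floor]
    linarith
  obtain ⟨y, hy, hI⟩ := (ht_iff hn hω hx K).2 (by linarith)
  have hyK : y = K := le_antisymm (hle y hI) hy
  rw [hyK] at hI
  refine ⟨K, hI, hle, ?_⟩
  refine IsGreatest.csSup_eq ⟨⟨K, hI, rfl⟩, ?_⟩
  rintro z ⟨k, hk, rfl⟩
  have : (k : ℝ) ≤ K := by exact_mod_cast hle k hk
  linarith

private lemma gpa67 {n : ℕ} (hn : 1 ≤ n) {ω : Conf} (hω : ω ∈ confs (box n n) (eta 0)) {x : ℤ} (hx : |x| ≤ n)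
    {t : ℝ} (ht : |t - x| < 1 / 2) : Gp ω t = PL.ht n ω x := by
  obtain ⟨k₀, hI, hmax, hh⟩ := top67 hn hω hx
  rw [hh]
  refine IsGreatest.csSup_eq ⟨?_, ?_⟩
  · exact (mem67 hn hω t _).2 (Or.inr ⟨x, k₀, hI, ht.le, rfl⟩)
  · intro y hy
    rcases (mem67 hn hω t y).1 hy with ⟨a, b, _, h1, _⟩ | ⟨a, b, hb, h1, h2⟩
    · exfalso
      rw [h1, abs_lt] at ht
      have h3 : (-1 : ℝ) < ((a - x : ℤ) : ℝ) := by push_cast; linarith [ht.1]
      have h4 : ((a - x : ℤ) : ℝ) < 0 := by push_cast; linarith [ht.2]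
      have h5 : -1 < a - x := by exact_mod_cast h3
      have h6 : a - x < 0 := by exact_mod_cast h4
      omega
    · rw [abs_lt] at ht
      rw [abs_le] at h1
      have h3 : (-1 : ℝ) < ((a - x : ℤ) : ℝ) := by push_cast; linarith [ht.1, h1.2]
      have h4 : ((a - x : ℤ) : ℝ) < 1 := by push_cast; linarith [ht.2, h1.1]
      have h5 : -1 < a - x := by exact_mod_cast h3
      have h6 : a - x < 1 := by exact_mod_cast h4
      have h7 : a = x := by omega
      rw [h7] at hb
      have h8 : (b : ℝ) ≤ k₀ := by exact_mod_cast hmax b hb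
      rw [h2]
      linarith

private lemma side67 {n : ℕ} {ω : Conf} (hω : ω ∈ confs (box n n) (eta 0)) {x k : ℤ}
    (h0 : ∀ j, k ≤ j → ¬ Interface n ω ((x, j), false)) (h1 : ∀ j, k ≤ j → ¬ Interface n ω ((x + 1, j), false)) :
    ¬ Interface n ω ((x, k), true) := by
  intro hI
  have hall : ∀ j : ℕ, Interface n ω ((x, k + j), true) := by
    intro j
    induction j with
    | zero => simpa using hI
    | succ j ih =>
      have he := plaq_even (N := n) (ω := ω) x (k + j)
      have e1 : ig n ω ((x, k + j), true) = 1 := if_pos ih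
      have e2 : ig n ω ((x, k + j), false) = 0 := if_neg (h0 _ (by omega))
      have e3 : ig n ω ((x + 1, k + j), false) = 0 := if_neg (h1 _ (by omega))
      rw [e1, e2, e3] at he
      by_contra hc
      have hc' : ¬ Interface n ω ((x, k + j + 1), true) := by
        intro h
        apply hc
        have : k + ((j + 1 : ℕ) : ℤ) = k + j + 1 := by push_cast; ring
        rw [this]
        exact h
      have e4 : ig n ω ((x, k + j + 1), true) = 0 := if_neg hc'
      rw [e4] at he
      exact absurd he (by decide)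
  have hbr := (hall (n + k.natAbs + 1)).1
  rw [mem_confs] at hω
  apply hbr
  have hb1 : ((x, k + ((n + k.natAbs + 1 : ℕ) : ℤ)) : ℤ × ℤ) ∉ box n n := by
    rw [mem_box]
    simp only
    push_cast
    have := neg_abs_le k
    omega
  have hb2 : bend ((x, k + ((n + k.natAbs + 1 : ℕ) : ℤ)), true) ∉ box n n := by
    rw [mem_box]
    simp only [bend, e1, if_true, Prod.mk_add_mk, add_zero]
    push_cast
    have := neg_abs_le k
    omega
  rw [hω _ hb1, hω _ hb2]
  simp only [bend, e1, if_true, Prod.mk_add_mk, add_zero, eta]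

private lemma gpb67 {n : ℕ} (hn : 1 ≤ n) {ω : Conf} (hω : ω ∈ confs (box n n) (eta 0)) {x : ℤ} (hx : |x| ≤ n)
    (hx' : |x + 1| ≤ n) : Gp ω ((x : ℝ) + 1 / 2) = max (PL.ht n ω x) (PL.ht n ω (x + 1)) := by
  obtain ⟨k₀, hI, hmax, hh⟩ := top67 hn hω hx
  obtain ⟨k₁, hI', hmax', hh'⟩ := top67 hn hω hx'
  rw [hh, hh']
  refine IsGreatest.csSup_eq ⟨?_, ?_⟩
  · rcases le_total ((k₀ : ℝ) + 1 / 2) ((k₁ : ℝ) + 1 / 2) with h | h
    · rw [max_eq_right h]
      refine (mem67 hn hω _ _).2 (Or.inr ⟨x + 1, k₁, hI', ?_, rfl⟩)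
      push_cast
      rw [abs_le]
      constructor <;> linarith
    · rw [max_eq_left h]
      refine (mem67 hn hω _ _).2 (Or.inr ⟨x, k₀, hI, ?_, rfl⟩)
      rw [abs_le]
      constructor <;> linarith
  · intro y hy
    rcases (mem67 hn hω _ y).1 hy with ⟨a, b, hb, h1, h2⟩ | ⟨a, b, hb, h1, h2⟩
    · have h3 : (a : ℝ) = x := by linarith
      have h4 : a = x := by exact_mod_cast h3
      rw [h4] at hb
      have h5 : b ≤ max k₀ k₁ := by
        by_contra hc
        push Not at hc
        rw [max_lt_iff] at hc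
        refine side67 hω (x := x) (k := b) ?_ ?_ hb
        · intro j hj hIj
          have := hmax j hIj
          omega
        · intro j hj hIj
          have := hmax' j hIj
          omega
      rw [abs_le] at h2
      have h6 : (b : ℝ) ≤ max (k₀ : ℝ) k₁ := by exact_mod_cast h5
      rw [max_add_add_right]
      linarith [h2.2]
    · rw [abs_le] at h1
      have h3 : (-1 : ℝ) < ((a - x : ℤ) : ℝ) := by push_cast; linarith [h1.2]
      have h4 : ((a - x : ℤ) : ℝ) < 2 := by push_cast; linarith [h1.1]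
      have h5 : -1 < a - x := by exact_mod_cast h3
      have h6 : a - x < 2 := by exact_mod_cast h4
      have h7 : a = x ∨ a = x + 1 := by omega
      rw [h2]
      rcases h7 with h7 | h7
      · rw [h7] at hb
        have h8 : (b : ℝ) ≤ k₀ := by exact_mod_cast hmax b hb
        refine le_max_of_le_left ?_
        linarith
      · rw [h7] at hb
        have h8 : (b : ℝ) ≤ k₁ := by exact_mod_cast hmax' b hb
        refine le_max_of_le_right ?_
        linarith

section

variable {n : ℕ} (hn : 1 ≤ n) {ω : Conf} (hω : ω ∈ confs (box n n) (eta 0))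

include hn hω

theorem gp_int {x : ℤ} (hx : |x| ≤ n) : Gp ω x = ht n ω x := by
  refine gpa67 hn hω hx ?_
  rw [sub_self, abs_zero]
  norm_num

theorem gp_eq {t : ℝ} (ht' : |t| ≤ n) : ∃ x : ℤ, |x| ≤ n ∧ |t - x| ≤ 1 / 2 ∧ Gp ω t = ht n ω x := by
  have hr := abs_sub_round t
  rw [abs_le] at ht'
  rcases lt_or_eq_of_le hr with h | h
  · have hxn : |round t| ≤ (n : ℤ) := by
      rw [abs_le]
      rw [abs_lt] at h
      constructor
      · have : (-(n : ℝ) - 1) < ((round t : ℤ) : ℝ) := by linarith [h.1, h.2, ht'.1]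
        have h2 : (-(n : ℤ) - 1) < round t := by exact_mod_cast this
        omega
      · have : ((round t : ℤ) : ℝ) < n + 1 := by linarith [h.1, h.2, ht'.2]
        have h2 : round t < (n : ℤ) + 1 := by exact_mod_cast this
        omega
    exact ⟨round t, hxn, h.le, gpa67 hn hω hxn h⟩
  · obtain ⟨x, hx⟩ : ∃ x : ℤ, t = x + 1 / 2 := by
      rcases abs_eq (by norm_num : (0 : ℝ) ≤ 1 / 2) |>.1 h with h1 | h1
      · exact ⟨round t, by linarith⟩
      · exact ⟨round t - 1, by push_cast; linarith⟩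
    have h1 : -(n : ℤ) ≤ x := by
      have : (-(n : ℝ) - 1) < ((x : ℤ) : ℝ) := by linarith [ht'.1]
      have h2 : (-(n : ℤ) - 1) < x := by exact_mod_cast this
      omega
    have h2 : x + 1 ≤ (n : ℤ) := by
      have : ((x : ℤ) : ℝ) < n := by linarith [ht'.2]
      have h2 : x < (n : ℤ) := by exact_mod_cast this
      omega
    have hxa : |x| ≤ (n : ℤ) := by
      rw [abs_le]
      constructor <;> omega
    have hxb : |x + 1| ≤ (n : ℤ) := by
      rw [abs_le]
      constructor <;> omega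
    have hG := gpb67 hn hω hxa hxb
    rw [hx]
    rcases le_total (PL.ht n ω x) (PL.ht n ω (x + 1)) with h3 | h3
    · refine ⟨x + 1, hxb, ?_, ?_⟩
      · push_cast
        rw [abs_le]
        constructor <;> linarith
      · rw [hG, max_eq_right h3]
    · refine ⟨x, hxa, ?_, ?_⟩
      · rw [abs_le]
        constructor <;> linarith
      · rw [hG, max_eq_left h3]

theorem path_eq : path n ω = pth n ω := by
  refine ContinuousMap.ext fun s => ?_
  change ∑ x ∈ Finset.Icc (-(n : ℤ)) n, Gp ω x / Real.sqrt n * max 0 (1 - |n * (s : ℝ) - x|) =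
    ∑ x ∈ Finset.Icc (-(n : ℤ)) n, ht n ω x / Real.sqrt n * max 0 (1 - |n * (s : ℝ) - x|)
  refine Finset.sum_congr rfl fun x hx => ?_
  rw [Finset.mem_Icc] at hx
  rw [gp_int hn hω (abs_le.2 hx)]

end

end Pool.Agent.Helper49.FL
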