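import Pool.Agent.Helper49.FL.Expec
import Pool.Agent.Helper49.FL.Hgt
import Pool.Agent.Helper49.FL.Gform
import Pool.Agent.Helper49.FL.Exc
import Pool.Agent.Helper49.PL.Final

/-!
Block BE-Z: the main theorem, assembly.

Paper proof. `magn_eq`, `functional_limit`: the measure `μ` with the finite dimensional distributions `FF g`, `g = sg (exp (-β)) > 0` (`0 < β` as `0 ≤ β₁ < β`; `0 < sg`: see `RD` (`sg_pos` or the proof in `Fdd`/`MRatio`; `lam (exp (-β)) < 1` for `mag β₁ > 0`, `β₁ < β`, `DX/Sys.lean`, `DX/Cst.lean`)), `kappa β = √g` (`sg_eq`). `exc_of`, `exc_unique`.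
`expec_eq`, `dob_eq`, and `path n ω = pth n ω` for `ω ∈ confs (box n n) (eta 0)`, `n ≥ 1` (`path_eq`, `avg_congr`). Closeness: for `n ≥ 1`, `s : TI`, `|n s| ≤ n`, `gp_eq` gives `x` with `|x| ≤ n`, `|n s - x| ≤ 1/2` and `Gp ω (n s) = ht n ω x`; the last part of the theorem in
`Results/MP_7e0861_pr/FunctionalLimit.lean` (from `mod_small`, `pth_int`) with `avg_mono`.
-/

open Filter MeasureTheory
open scoped Classical

namespace Pool.Agent.Helper49.FL

open Pool.Agent.Helper49.DL Pool.Agent.Helper49.DX Pool.Agent.Helper49.RD Pool.Agent.Helper49.PL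

private lemma sgp34 {t : ℝ} (ht : 0 < t) (hq : t ^ 2 + 2 * t < 1) : 0 < RD.sg t := by
  have h1 := lam_pos ht (t_lt_one ht hq)
  have h2 := lam_lt_one ht hq
  unfold RD.sg
  have h3 : 0 < 1 - lam t ^ 2 := by nlinarith
  positivity

theorem main {β₁ β J : ℝ} (h0 : 0 ≤ β₁) (h : β₁ < β) (hm : 0 < magn β₁) (hJ : 1 < J) :
    ∃ P : Measure C(TI, ℝ), IsExc P ∧ (∀ Q : Measure C(TI, ℝ), IsExc Q → Q = P) ∧
      (∀ G : C(TI, ℝ) → ℝ, Continuous G → (∃ B : ℝ, ∀ f, |G f| ≤ B) →
        Tendsto (fun n : ℕ => expec β J (Lam n) dob (fun ω => G (path n ω))) atTop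
          (nhds (∫ f, (G (kappa β • f) + G (-(kappa β • f))) / 2 ∂P))) ∧
      ∀ ε : ℝ, 0 < ε → Tendsto (fun n : ℕ => expec β J (Lam n) dob
        (fun ω => if ∃ s : TI, ε < |path n ω s - Gp ω (n * (s : ℝ)) / Real.sqrt n| then 1 else 0)) atTop
          (nhds 0) := by
  rw [magn_eq] at hm
  have hβ : 0 < β := lt_of_le_of_lt h0 h
  obtain ⟨μ, hμ, hG, hX⟩ := functional_limit h0 h hm hJ
  have hg : 0 < sg (Real.exp (-β)) := sgp34 (Real.exp_pos _) (t_small h0 h hm)
  obtain ⟨P, hP, hP2⟩ := exc_of hg hX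
  refine ⟨P, hP, fun Q hQ => exc_unique hQ hP, ?_, ?_⟩
  · intro G hGc hGb
    have h1 := hG G hGc hGb
    rw [hP2 G hGc hGb] at h1
    have hk : kappa β = Real.sqrt (sg (Real.exp (-β))) := by
      unfold kappa
      rw [sg_eq hβ]
    rw [hk]
    refine h1.congr' ?_
    filter_upwards [eventually_ge_atTop 1] with n hn
    rw [expec_eq, dob_eq]
    refine avg_congr fun ω hω => ?_
    rw [path_eq hn hω]
  · intro ε hε
    rw [Metric.tendsto_atTop]
    intro t ht'
    obtain ⟨d, n₀, hd, h3⟩ := mod_small h0 h hm hJ hε (half_pos ht')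
    obtain ⟨n₁, hn₁⟩ := exists_nat_gt (1 / d)
    refine ⟨max (max n₀ n₁) 1, fun n hn => ?_⟩
    have hn0 : n₀ ≤ n := le_trans (le_trans (le_max_left _ _) (le_max_left _ _)) hn
    have hn1 : n₁ ≤ n := le_trans (le_trans (le_max_right _ _) (le_max_left _ _)) hn
    have hn2 : 1 ≤ n := le_trans (le_max_right _ _) hn
    have hnr : (1 : ℝ) ≤ n := by exact_mod_cast hn2
    have hdn : 1 / d < n := hn₁.trans_le (by exact_mod_cast hn1)
    have h4 : 1 < (n : ℝ) * d := by
      rw [div_lt_iff₀ hd] at hdn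
      exact hdn
    have hnp : (0 : ℝ) < n := by linarith
    have hsub : expec β J (Lam n) dob
        (fun ω => if ∃ s : TI, ε < |path n ω s - Gp ω (n * (s : ℝ)) / Real.sqrt n| then 1 else 0) ≤
        PJ β J n (fun ω => ∃ s s' : TI, |(s : ℝ) - s'| ≤ d ∧ ε < |pth n ω s - pth n ω s'|) := by
      rw [expec_eq, dob_eq]
      unfold PJ
      refine avg_mono fun ω hω => ?_
      by_cases hE : ∃ s : TI, ε < |path n ω s - Gp ω (n * (s : ℝ)) / Real.sqrt n|
      · obtain ⟨s, hlt⟩ := hE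
        have hns : |(n : ℝ) * (s : ℝ)| ≤ n := by
          rw [abs_mul, abs_of_pos hnp]
          have h6 : |(s : ℝ)| ≤ 1 := abs_le.2 s.2
          nlinarith
        obtain ⟨x, hx, hsx, hgx⟩ := gp_eq hn2 hω hns
        have hlt' := hlt
        rw [hgx, path_eq hn2 hω] at hlt'
        have hxr : |(x : ℝ)| ≤ n := by exact_mod_cast hx
        obtain ⟨hx1, hx2⟩ := abs_le.1 hxr
        have hs' : (-1 : ℝ) ≤ x / n ∧ (x : ℝ) / n ≤ 1 := by
          constructor
          · rw [le_div_iff₀ hnp]; linarith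
          · rw [div_le_iff₀ hnp]; linarith
        have hE' : ∃ s s' : TI, |(s : ℝ) - s'| ≤ d ∧ ε < |pth n ω s - pth n ω s'| := by
          refine ⟨s, ⟨x / n, hs'⟩, ?_, ?_⟩
          · show |(s : ℝ) - (x : ℝ) / n| ≤ d
            have h5 : (s : ℝ) - (x : ℝ) / n = ((n : ℝ) * s - x) / n := by field_simp
            rw [h5, abs_div, abs_of_pos hnp, div_le_iff₀ hnp]
            nlinarith
          · rw [pth_int hn2 ω hx ⟨x / n, hs'⟩ (by show (n : ℝ) * ((x : ℝ) / n) = x; field_simp)]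
            exact hlt'
        rw [if_pos ⟨s, hlt⟩, if_pos hE']
      · rw [if_neg hE]
        split_ifs <;> norm_num
    have h5 := hsub.trans (h3 n hn0)
    have h6 : 0 ≤ expec β J (Lam n) dob
        (fun ω => if ∃ s : TI, ε < |path n ω s - Gp ω (n * (s : ℝ)) / Real.sqrt n| then 1 else 0) := by
      rw [expec_eq, dob_eq]
      exact avg_nonneg fun ω _ => by split_ifs <;> norm_num
    rw [Real.dist_eq, sub_zero, abs_of_nonneg h6]
    linarith

end Pool.Agent.Helper49.FL
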