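import Pool.Agent.Helper49.FL.Joint

/-!
Block BE-S: scaling of the densities.

Paper proof. `dg g s (√g • w) = c₀ * dens s w` for all `w`, with `c₀ = g^(-2) * g^(-p/2) * 2/π > 0`: `rho (g t) (√g w) = (1/g) * ent t w/√(π/2)` (`(√g w)² / (2 g t) = w²/(2 t)`, `√g/(g t √(g t)) = 1/(g t √t)`) and `hk (g t) (√g y) (√g z) = (1/√g) * ker t y z`. The map `w ↦ √g • w` of `ℝ^(p+1)` multiplies the Lebesgue measure by a constant
(`MeasureTheory.Measure.addHaar_smul`/`map_addHaar_smul`: `Measure.map (r • ·) volume = ofReal |r^(finrank)|⁻¹ • volume`) and maps `pos p` onto `pos p`. So the image of `Dm g s` under `z ↦ (√g)⁻¹ • z` is `c • ` the measure with the density `dens s` on `pos p` (`lintegral` of a measurable set: `Measure.map_apply`,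
`withDensity_apply`, change of variables `lintegral_map` / `MeasurableEquiv`/`Homeomorph.smulOfNeZero`).
-/

open Set MeasureTheory

namespace Pool.Agent.Helper49.FL

open Pool.Agent.Helper49.RD Pool.Agent.Helper49.PL

/-- The measure with density `dens s` on the positive orthant. -/
noncomputable def Em {p : ℕ} (s : Fin (p + 1) → ℝ) : Measure (Fin (p + 1) → ℝ) :=
  (volume.restrict {z : Fin (p + 1) → ℝ | ∀ i, 0 < z i}).withDensity (fun z => ENNReal.ofReal (dens s z))

private theorem rho_scale53 {g : ℝ} (hg : 0 < g) (t w : ℝ) :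
    rho (g * t) (Real.sqrt g * w) = (g * Real.sqrt (Real.pi / 2))⁻¹ * ent t w := by
  unfold rho ent
  have h1 : (Real.sqrt g * w) ^ 2 / (2 * (g * t)) = w ^ 2 / (2 * t) := by
    rw [mul_pow, Real.sq_sqrt hg.le, show 2 * (g * t) = g * (2 * t) by ring]
    exact mul_div_mul_left _ _ hg.ne'
  have hs : Real.sqrt g ≠ 0 := (Real.sqrt_pos.2 hg).ne'
  have hp : Real.sqrt (Real.pi / 2) ≠ 0 := (Real.sqrt_pos.2 (by positivity)).ne'
  rw [h1, Real.sqrt_mul hg.le]
  by_cases ht : t * Real.sqrt t = 0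
  · have h2 : Real.sqrt (Real.pi / 2) * (g * t * (Real.sqrt g * Real.sqrt t)) = 0 := by
      have : g * t * (Real.sqrt g * Real.sqrt t) = g * Real.sqrt g * (t * Real.sqrt t) := by ring
      rw [this, ht]
      ring
    rw [h2, ht, div_zero, div_zero, mul_zero]
  · have ht1 : t ≠ 0 := fun h => ht (by rw [h]; ring)
    have ht2 : Real.sqrt t ≠ 0 := fun h => ht (by rw [h]; ring)
    field_simp

private theorem hk_scale53 {g : ℝ} (hg : 0 < g) (t y z : ℝ) :
    hk (g * t) (Real.sqrt g * y) (Real.sqrt g * z) = (Real.sqrt g)⁻¹ * ker t y z := by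
  unfold hk ker
  have h1 : ∀ u : ℝ, (Real.sqrt g * u) ^ 2 / (2 * (g * t)) = u ^ 2 / (2 * t) := by
    intro u
    rw [mul_pow, Real.sq_sqrt hg.le, show 2 * (g * t) = g * (2 * t) by ring]
    exact mul_div_mul_left _ _ hg.ne'
  rw [← mul_sub, ← mul_add, h1, h1, show 2 * Real.pi * (g * t) = g * (2 * Real.pi * t) by ring,
    Real.sqrt_mul hg.le, inv_mul_eq_div, div_div, mul_comm (Real.sqrt g)]

theorem dens_scale {g : ℝ} (hg : 0 < g) (p : ℕ) : ∃ c : ℝ, 0 < c ∧ ∀ s w : Fin (p + 1) → ℝ, (∀ i, -1 < s i ∧ s i < 1) →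
    StrictMono s → dg g s (Real.sqrt g • w) = c * dens s w := by
  refine ⟨(g * Real.sqrt (Real.pi / 2))⁻¹ * (Real.sqrt g)⁻¹ ^ p * (g * Real.sqrt (Real.pi / 2))⁻¹, ?_, ?_⟩
  · have h1 : 0 < Real.sqrt g := Real.sqrt_pos.2 hg
    have h2 : 0 < Real.sqrt (Real.pi / 2) := Real.sqrt_pos.2 (by positivity)
    positivity
  · intro s w _ _
    unfold dg dens
    simp only [Pi.smul_apply, smul_eq_mul]
    rw [rho_scale53 hg, rho_scale53 hg, Finset.prod_congr rfl (fun i _ => hk_scale53 hg _ _ _),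
      Finset.prod_mul_distrib, Finset.prod_const, Finset.card_univ, Fintype.card_fin]
    ring

theorem dm_scale {g : ℝ} (hg : 0 < g) {p : ℕ} {s : Fin (p + 1) → ℝ} (hs : StrictMono s)
    (hs1 : ∀ i, -1 < s i ∧ s i < 1) :
    ∃ c : ENNReal, c ≠ 0 ∧ c ≠ ⊤ ∧ (Dm g s).map (fun z => (Real.sqrt g)⁻¹ • z) = c • Em s := by
  obtain ⟨c, hc, hcs⟩ := dens_scale hg p
  set r : ℝ := Real.sqrt g with hr
  have hr0 : 0 < r := Real.sqrt_pos.2 hg
  have hmeas1 : Measurable (fun z : Fin (p + 1) → ℝ => r⁻¹ • z) := measurable_const_smul _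
  have hmeas2 : Measurable (fun z : Fin (p + 1) → ℝ => r • z) := measurable_const_smul _
  have hpos : MeasurableSet (pos p) := by
    have : pos p = ⋂ i, {z : Fin (p + 1) → ℝ | 0 < z i} := by
      ext z
      simp [pos]
    rw [this]
    exact MeasurableSet.iInter fun i => measurableSet_lt measurable_const (measurable_pi_apply i)
  have hvol : (volume : Measure (Fin (p + 1) → ℝ)) =
      ENNReal.ofReal (r ^ (p + 1)) • (volume : Measure (Fin (p + 1) → ℝ)).map (fun z => r • z) := by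
    have h1 := MeasureTheory.Measure.map_addHaar_smul (volume : Measure (Fin (p + 1) → ℝ)) hr0.ne'
    rw [Module.finrank_fin_fun] at h1
    rw [show (fun z : Fin (p + 1) → ℝ => r • z) = (r • ·) from rfl, h1, smul_smul,
      ← ENNReal.ofReal_mul (by positivity), abs_of_pos (by positivity), mul_inv_cancel₀ (by positivity),
      ENNReal.ofReal_one, one_smul]
  refine ⟨ENNReal.ofReal (r ^ (p + 1)) * ENNReal.ofReal c, ?_, ?_, ?_⟩
  · refine mul_ne_zero ?_ ?_
    · exact (ENNReal.ofReal_pos.2 (by positivity)).ne'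
    · exact (ENNReal.ofReal_pos.2 hc).ne'
  · exact ENNReal.mul_ne_top ENNReal.ofReal_ne_top ENNReal.ofReal_ne_top
  · refine Measure.ext fun A hA => ?_
    have hB : MeasurableSet ((fun z : Fin (p + 1) → ℝ => r⁻¹ • z) ⁻¹' A) := hmeas1 hA
    rw [Measure.map_apply hmeas1 hA, Measure.smul_apply, smul_eq_mul]
    unfold Dm Em
    rw [withDensity_apply _ hB, withDensity_apply _ hA, Measure.restrict_restrict hB,
      Measure.restrict_restrict hA, ← lintegral_indicator (hB.inter hpos)]
    have hset : {z : Fin (p + 1) → ℝ | ∀ i, 0 < z i} = pos p := rfl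
    rw [hset, ← lintegral_indicator (hA.inter hpos)]
    have hF : Measurable (((fun z : Fin (p + 1) → ℝ => r⁻¹ • z) ⁻¹' A ∩ pos p).indicator
        (fun z => ENNReal.ofReal (dg g s z))) :=
      (ENNReal.measurable_ofReal.comp (dg_meas g s)).indicator (hB.inter hpos)
    calc ∫⁻ z, ((fun z : Fin (p + 1) → ℝ => r⁻¹ • z) ⁻¹' A ∩ pos p).indicator
          (fun z => ENNReal.ofReal (dg g s z)) z
        = ∫⁻ z, ((fun z : Fin (p + 1) → ℝ => r⁻¹ • z) ⁻¹' A ∩ pos p).indicator
          (fun z => ENNReal.ofReal (dg g s z)) z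
            ∂(ENNReal.ofReal (r ^ (p + 1)) • (volume : Measure (Fin (p + 1) → ℝ)).map
              (fun z => r • z)) := by rw [← hvol]
      _ = ENNReal.ofReal (r ^ (p + 1)) * ∫⁻ w,
          ((fun z : Fin (p + 1) → ℝ => r⁻¹ • z) ⁻¹' A ∩ pos p).indicator
          (fun z => ENNReal.ofReal (dg g s z)) (r • w) := by
        rw [lintegral_smul_measure, lintegral_map hF hmeas2, smul_eq_mul]
      _ = ENNReal.ofReal (r ^ (p + 1)) * ∫⁻ w, ENNReal.ofReal c *
          (A ∩ pos p).indicator (fun z => ENNReal.ofReal (dens s z)) w := by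
        congr 1
        refine lintegral_congr fun w => ?_
        have hw : (r • w ∈ (fun z : Fin (p + 1) → ℝ => r⁻¹ • z) ⁻¹' A ∩ pos p) ↔ w ∈ A ∩ pos p := by
          rw [Set.mem_inter_iff, Set.mem_inter_iff, Set.mem_preimage, inv_smul_smul₀ hr0.ne']
          refine and_congr Iff.rfl ?_
          unfold pos
          simp only [Set.mem_setOf_eq, Pi.smul_apply, smul_eq_mul]
          exact forall_congr' fun i => mul_pos_iff_of_pos_left hr0
        by_cases h : w ∈ A ∩ pos p
        · rw [Set.indicator_of_mem h, Set.indicator_of_mem (hw.2 h), hcs s w hs1 hs,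
            ENNReal.ofReal_mul hc.le]
        · rw [Set.indicator_of_notMem h, Set.indicator_of_notMem (fun h' => h (hw.1 h')), mul_zero]
      _ = _ := by
        rw [lintegral_const_mul' _ _ ENNReal.ofReal_ne_top, mul_assoc]

end Pool.Agent.Helper49.FL
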